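import Mathlib

/-!
Certificates: all multiples `m α`, `m ≤ M`, of an irrational number `α` cannot avoid a block of digits.
-/

set_option autoImplicit false

namespace Pool.Agent.K9h59.MD

/-- search trees on rational breakpoints; a leaf holds a rank, a phase and a list of witnesses -/
inductive Tr
  | leaf (r k : ℕ) (w : List ℕ) : Tr
  | node (p q : ℕ) (l r : Tr) : Tr

/-- the rank and the phase of the leaf of `x` -/
noncomputable def Tr.ev : Tr → ℝ → ℕ × ℕ
  | .leaf r k _, _ => (r, k)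
  | .node p q l r, x => if x * q < p then l.ev x else r.ev x

/-- the rank and the phase of the leaf which contains the interval from `A` to `B` -/
def Tr.look : Tr → ℕ × ℕ → ℕ × ℕ → Option (ℕ × ℕ)
  | .leaf r k _, _, _ => some (r, k)
  | .node p q l r, A, B =>
    if B.1 * q ≤ p * B.2 then l.look A B else if p * A.2 ≤ A.1 * q then r.look A B else none

/-- the denominators are positive -/
def Tr.wf : Tr → Bool
  | .leaf _ _ _ => true
  | .node _ q l r => decide (0 < q) && l.wf && r.wf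

/-- the largest rank -/
def Tr.maxr : Tr → ℕ
  | .leaf r _ _ => r
  | .node _ _ l r => max l.maxr r.maxr

lemma ev_le (T : Tr) (x : ℝ) : (T.ev x).1 ≤ T.maxr := by
  induction T with
  | leaf r k w => exact le_rfl
  | node p q l r ihl ihr =>
    unfold Tr.ev Tr.maxr
    split_ifs
    · exact ihl.trans (le_max_left _ _)
    · exact ihr.trans (le_max_right _ _)

lemma look_ev (T : Tr) (hT : T.wf = true) (A B : ℕ × ℕ) (hA : 0 < A.2) (hB : 0 < B.2) (v : ℕ × ℕ)
    (h : T.look A B = some v) (x : ℝ) (h1 : (A.1 : ℝ) < x * A.2) (h2 : x * B.2 < B.1) :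
    T.ev x = v := by
  induction T with
  | leaf r k w =>
    unfold Tr.look at h
    unfold Tr.ev
    exact Option.some.inj h
  | node p q l r ihl ihr =>
    unfold Tr.wf at hT
    simp only [Bool.and_eq_true, decide_eq_true_eq] at hT
    obtain ⟨⟨hq, hl⟩, hr⟩ := hT
    have hq' : (0 : ℝ) < q := by exact_mod_cast hq
    have hA' : (0 : ℝ) < A.2 := by exact_mod_cast hA
    have hB' : (0 : ℝ) < B.2 := by exact_mod_cast hB
    unfold Tr.look at h
    unfold Tr.ev
    by_cases c1 : B.1 * q ≤ p * B.2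
    · rw [if_pos c1] at h
      have c1' : (B.1 : ℝ) * q ≤ p * B.2 := by exact_mod_cast c1
      have : x * q < p := by
        by_contra hcon
        push Not at hcon
        nlinarith [mul_lt_mul_of_pos_right h2 hq', mul_le_mul_of_nonneg_right hcon hB'.le]
      rw [if_pos this]
      exact ihl hl h
    · rw [if_neg c1] at h
      by_cases c2 : p * A.2 ≤ A.1 * q
      · rw [if_pos c2] at h
        have c2' : (p : ℝ) * A.2 ≤ A.1 * q := by exact_mod_cast c2
        have : ¬ x * q < p := by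
          intro hcon
          nlinarith [mul_lt_mul_of_pos_right h1 hq', mul_lt_mul_of_pos_right hcon hA']
        rw [if_neg this]
        exact ihr hr h
      · rw [if_neg c2] at h
        cases h

/-- the check of a leaf for the digit `c` -/
def okc (g h w M : ℕ) (cyc : List (List ℕ)) (T : Tr) (A B : ℕ × ℕ) (r k : ℕ) (ws : List ℕ) (c : ℕ) :
    Bool :=
  if ws.getD c 0 = 0 then
    match T.look (c * A.2 + A.1, g * A.2) (c * B.2 + B.1, g * B.2) with
    | none => false
    | some v => decide (r < v.1) || (decide (r = v.1) && decide ((cyc.getD r []).getD v.2 g = c) &&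
        decide (k = (v.2 + 1) % (cyc.getD r []).length))
  else
    decide (ws.getD c 0 ≤ M) &&
      decide (ws.getD c 0 * h * B.1 ≤ (ws.getD c 0 * h * A.1 / A.2 + 1) * B.2) &&
      decide ((ws.getD c 0 * h * c + ws.getD c 0 * h * A.1 / A.2) % (g * h) = w)

/-- the check of a subtree -/
def chk (g h w M : ℕ) (cyc : List (List ℕ)) (T : Tr) : Tr → ℕ × ℕ → ℕ × ℕ → Bool
  | .leaf r k ws, A, B => (List.range g).all fun c => okc g h w M cyc T A B r k ws c
  | .node p q l r, A, B => decide (0 < q) && chk g h w M cyc T l A (p, q) &&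
      chk g h w M cyc T r (p, q) B

/-- the relation between consecutive ranks and phases -/
def Rel (g : ℕ) (cyc : List (List ℕ)) (v' v : ℕ × ℕ) (c : ℕ) : Prop :=
  v.1 < v'.1 ∨ (v.1 = v'.1 ∧ (cyc.getD v.1 []).getD v'.2 g = c ∧
    v.2 = (v'.2 + 1) % (cyc.getD v.1 []).length)

theorem chk_sound (g h w M : ℕ) (hg : 0 < g) (hh : 0 < h) (cyc : List (List ℕ)) (T : Tr)
    (hT : T.wf = true) (T' : Tr) (A B : ℕ × ℕ) (hA : 0 < A.2) (hB : 0 < B.2)
    (hc : chk g h w M cyc T T' A B = true) (x : ℝ) (hx : Irrational x) (h1 : (A.1 : ℝ) < x * A.2)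
    (h2 : x * B.2 < B.1) (c : ℕ) (hcg : c < g) :
    (∃ m : ℕ, 1 ≤ m ∧ m ≤ M ∧ ⌊(m : ℝ) * (g * h) * ((c + x) / g)⌋ % ((g * h : ℕ) : ℤ) = w) ∨
      Rel g cyc (T.ev ((c + x) / g)) (T'.ev x) c := by
  induction T' generalizing A B with
  | leaf r k ws =>
    unfold chk at hc
    rw [List.all_eq_true] at hc
    have h3 := hc c (List.mem_range.2 hcg)
    have hg' : (0 : ℝ) < g := by exact_mod_cast hg
    have hh' : (0 : ℝ) < h := by exact_mod_cast hh
    have hA' : (0 : ℝ) < A.2 := by exact_mod_cast hA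
    have hB' : (0 : ℝ) < B.2 := by exact_mod_cast hB
    unfold okc at h3
    by_cases hm : ws.getD c 0 = 0
    · right
      rw [if_pos hm] at h3
      cases hl : T.look (c * A.2 + A.1, g * A.2) (c * B.2 + B.1, g * B.2) with
      | none =>
        rw [hl] at h3
        cases h3
      | some v =>
        rw [hl] at h3
        have h4 : T.ev ((c + x) / g) = v := by
          refine look_ev T hT _ _ (Nat.mul_pos hg hA) (Nat.mul_pos hg hB) v hl _ ?_ ?_
          · push_cast
            rw [div_mul_eq_mul_div, lt_div_iff₀ hg']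
            nlinarith
          · push_cast
            rw [div_mul_eq_mul_div, div_lt_iff₀ hg']
            nlinarith
        rw [h4]
        simp only [Bool.or_eq_true, Bool.and_eq_true, decide_eq_true_eq] at h3
        unfold Rel Tr.ev
        rcases h3 with h3 | h3
        · exact Or.inl h3
        · exact Or.inr ⟨h3.1.1, h3.1.2, h3.2⟩
    · left
      rw [if_neg hm] at h3
      simp only [Bool.and_eq_true, decide_eq_true_eq] at h3
      obtain ⟨⟨h4, h5⟩, h6⟩ := h3
      obtain ⟨m, hmd⟩ : ∃ m, m = ws.getD c 0 := ⟨_, rfl⟩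
      obtain ⟨j, hj⟩ : ∃ j, j = ws.getD c 0 * h * A.1 / A.2 := ⟨_, rfl⟩
      rw [← hj] at h5 h6
      rw [← hmd] at hm h4 h5 h6 hj
      have hm1 : 1 ≤ m := Nat.one_le_iff_ne_zero.2 hm
      have hm' : (0 : ℝ) < m := by exact_mod_cast hm1
      refine ⟨m, hm1, h4, ?_⟩
      have hj1 : (j : ℝ) * A.2 ≤ m * h * A.1 := by
        have : j * A.2 ≤ m * h * A.1 := by rw [hj]; exact Nat.div_mul_le_self _ _
        exact_mod_cast this
      have h5' : (m : ℝ) * h * B.1 ≤ (j + 1) * B.2 := by exact_mod_cast h5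
      have hmh : (0 : ℝ) < m * h := by positivity
      have e1 : (j : ℝ) ≤ m * h * x := by
        by_contra hcon
        push Not at hcon
        nlinarith [mul_lt_mul_of_pos_left h1 hmh, mul_lt_mul_of_pos_right hcon hA']
      have e2 : (m : ℝ) * h * x < j + 1 := by
        by_contra hcon
        push Not at hcon
        nlinarith [mul_lt_mul_of_pos_left h2 hmh, mul_le_mul_of_nonneg_right hcon hB'.le]
      have e3 : (m : ℝ) * (g * h) * ((c + x) / g) = ((m * h * c : ℕ) : ℤ) + m * h * x := by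
        push_cast
        field_simp
      have e4 : ⌊(m : ℝ) * h * x⌋ = j := by
        rw [Int.floor_eq_iff]
        push_cast
        exact ⟨e1, e2⟩
      rw [e3, Int.floor_intCast_add, e4]
      exact_mod_cast h6
  | node p q l r ihl ihr =>
    unfold chk at hc
    simp only [Bool.and_eq_true, decide_eq_true_eq] at hc
    obtain ⟨⟨hq, hl⟩, hr⟩ := hc
    have hq' : (q : ℝ) ≠ 0 := by
      have : (0 : ℝ) < q := by exact_mod_cast hq
      exact this.ne'
    have hev : (Tr.node p q l r).ev x = if x * q < p then l.ev x else r.ev x := rfl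
    rw [hev]
    by_cases c1 : x * q < p
    · rw [if_pos c1]
      exact ihl A (p, q) hA hq hl h1 c1
    · rw [if_neg c1]
      refine ihr (p, q) B hq hB hr (lt_of_le_of_ne (not_lt.1 c1) ?_) h2
      intro hcon
      apply hx
      refine ⟨(p : ℚ) / q, ?_⟩
      push_cast
      rw [div_eq_iff hq']
      exact hcon

/-! ### the orbit -/

/-- the tails -/
noncomputable def xs (g : ℕ) (α : ℝ) (n : ℕ) : ℝ := Int.fract (α * (g : ℝ) ^ n)

/-- the digits -/
noncomputable def cs (g : ℕ) (α : ℝ) (n : ℕ) : ℕ := ⌊(g : ℝ) * xs g α n⌋₊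

lemma xs_bd (g : ℕ) (α : ℝ) (n : ℕ) : 0 ≤ xs g α n ∧ xs g α n < 1 :=
  ⟨Int.fract_nonneg _, Int.fract_lt_one _⟩

lemma cs_lt (g : ℕ) (hg : 0 < g) (α : ℝ) (n : ℕ) : cs g α n < g := by
  have hg' : (0 : ℝ) < g := by exact_mod_cast hg
  unfold cs
  rw [Nat.floor_lt (mul_nonneg hg'.le (xs_bd g α n).1)]
  have := (xs_bd g α n).2
  nlinarith

lemma xs_succ (g : ℕ) (α : ℝ) (n : ℕ) : xs g α (n + 1) = g * xs g α n - cs g α n := by
  have hg' : (0 : ℝ) ≤ g := Nat.cast_nonneg _
  have h0 : 0 ≤ (g : ℝ) * xs g α n := mul_nonneg hg' (xs_bd g α n).1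
  have h1 : α * (g : ℝ) ^ (n + 1) = ((g * ⌊α * (g : ℝ) ^ n⌋ : ℤ) : ℝ) + g * xs g α n := by
    have h2 : α * (g : ℝ) ^ n = ⌊α * (g : ℝ) ^ n⌋ + xs g α n := (Int.floor_add_fract _).symm
    rw [pow_succ, ← mul_assoc]
    push_cast
    linear_combination (g : ℝ) * h2
  have h3 : xs g α (n + 1) = Int.fract ((g : ℝ) * xs g α n) := by
    unfold xs at h1 ⊢
    rw [h1, Int.fract_intCast_add]
  rw [h3, Int.fract, cs, ← natCast_floor_eq_intCast_floor h0]

lemma xs_eq (g : ℕ) (hg : 0 < g) (α : ℝ) (n : ℕ) :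
    xs g α n = (cs g α n + xs g α (n + 1)) / g := by
  have hg' : (g : ℝ) ≠ 0 := by
    have : (0 : ℝ) < g := by exact_mod_cast hg
    exact this.ne'
  rw [xs_succ]
  field_simp
  ring

lemma xs_irr (g : ℕ) (hg : 0 < g) (α : ℝ) (hα : Irrational α) (n : ℕ) : Irrational (xs g α n) := by
  unfold xs Int.fract
  have h1 : (g : ℝ) ^ n = ((g ^ n : ℕ) : ℝ) := by push_cast; rfl
  have h2 : Irrational (α * (g : ℝ) ^ n) := by
    rw [h1]
    exact hα.mul_natCast (pow_pos hg n).ne'
  exact h2.sub_intCast _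

/-- the block of the digits of a multiple -/
lemma stands_iff (g : ℕ) (α : ℝ) (m n k : ℕ) (hk : 1 ≤ k) :
    ⌊(m * α) * (g : ℝ) ^ (n + k)⌋ % ((g ^ k : ℕ) : ℤ) =
      ⌊(m : ℝ) * (g * ((g ^ (k - 1) : ℕ) : ℝ)) * xs g α n⌋ % ((g * g ^ (k - 1) : ℕ) : ℤ) := by
  have e0 : g * g ^ (k - 1) = g ^ k := by
    rw [← pow_succ', Nat.sub_add_cancel hk]
  have e1 : (g : ℝ) * ((g ^ (k - 1) : ℕ) : ℝ) = ((g ^ k : ℕ) : ℝ) := by
    rw [← e0]
    push_cast
    rfl
  have h2 : α * (g : ℝ) ^ n = ⌊α * (g : ℝ) ^ n⌋ + xs g α n := (Int.floor_add_fract _).symm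
  have e2 : (m * α) * (g : ℝ) ^ (n + k) =
      ((((g ^ k : ℕ) : ℤ) * (m * ⌊α * (g : ℝ) ^ n⌋) : ℤ) : ℝ) + (m : ℝ) * ((g ^ k : ℕ) : ℝ) * xs g α n := by
    rw [pow_add]
    push_cast
    linear_combination (m : ℝ) * (g : ℝ) ^ k * h2
  rw [e0, e1, e2, Int.floor_intCast_add, Int.mul_add_emod_self_left]

/-- a certificate is valid -/
def Valid (g h w M : ℕ) (cyc : List (List ℕ)) (T : Tr) : Prop :=
  T.wf = true ∧ chk g h w M cyc T T (0, 1) (1, 1) = true

/-- the block `w` of `k` digits stands in none of the multiples `m α`, `m ≤ M`, after the place `n` -/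
def Free (g k w M : ℕ) (α : ℝ) (n : ℕ) : Prop :=
  ∀ m : ℕ, 1 ≤ m → m ≤ M → ⌊(m * α) * (g : ℝ) ^ (n + k)⌋ % ((g ^ k : ℕ) : ℤ) ≠ w

theorem step (g k w M : ℕ) (hg : 0 < g) (hk : 1 ≤ k) (cyc : List (List ℕ)) (T : Tr)
    (hV : Valid g (g ^ (k - 1)) w M cyc T) (α : ℝ) (hα : Irrational α) (n : ℕ) (hf : Free g k w M α n) :
    Rel g cyc (T.ev (xs g α n)) (T.ev (xs g α (n + 1))) (cs g α n) := by
  obtain ⟨h1, h2⟩ := hV
  have hx := xs_irr g hg α hα (n + 1)
  obtain ⟨b1, b2⟩ := xs_bd g α (n + 1)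
  have b1' : 0 < xs g α (n + 1) := lt_of_le_of_ne b1 (fun hcon => hx.ne_zero hcon.symm)
  rcases chk_sound g (g ^ (k - 1)) w M hg (pow_pos hg _) cyc T h1 T (0, 1) (1, 1) one_pos one_pos h2
    (xs g α (n + 1)) hx (by simpa using b1') (by simpa using b2) (cs g α n) (cs_lt g hg α n) with h3 | h3
  · exfalso
    obtain ⟨m, hm1, hmM, h4⟩ := h3
    rw [← xs_eq g hg] at h4
    apply hf m hm1 hmM
    rw [stands_iff g α m n k hk]
    exact h4
  · rwa [← xs_eq g hg] at h3

end Pool.Agent.K9h59.MD
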