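import Pool.Agent.K9h59.MD.A

/-!
A valid certificate: every irrational number has a multiple with the block of digits infinitely often.
-/

set_option autoImplicit false

namespace Pool.Agent.K9h59.MD

/-- tails with the same digits are close -/
lemma xs_close (g : ℕ) (hg : 0 < g) (α : ℝ) (L : ℕ) : ∀ a b : ℕ,
    (∀ i < L, cs g α (a + i) = cs g α (b + i)) → |xs g α a - xs g α b| * (g : ℝ) ^ L ≤ 1 := by
  have hg' : (0 : ℝ) < g := by exact_mod_cast hg
  induction L with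
  | zero =>
    intro a b _
    obtain ⟨h1, h2⟩ := xs_bd g α a
    obtain ⟨h3, h4⟩ := xs_bd g α b
    rw [pow_zero, mul_one, abs_le]
    constructor <;> linarith
  | succ L ih =>
    intro a b h
    have h1 := ih (a + 1) (b + 1) (fun i hi => by
      have := h (i + 1) (by omega)
      rw [show a + 1 + i = a + (i + 1) by ring, show b + 1 + i = b + (i + 1) by ring]
      exact this)
    have h0 := h 0 (by omega)
    rw [add_zero, add_zero] at h0
    have e : xs g α a - xs g α b = (xs g α (a + 1) - xs g α (b + 1)) / g := by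
      rw [xs_eq g hg α a, xs_eq g hg α b, h0]
      ring
    rw [e, abs_div, abs_of_pos hg', pow_succ]
    calc |xs g α (a + 1) - xs g α (b + 1)| / g * ((g : ℝ) ^ L * g)
        = |xs g α (a + 1) - xs g α (b + 1)| * (g : ℝ) ^ L := by field_simp
      _ ≤ 1 := h1

/-- on a plateau of the ranks the digits are periodic -/
lemma plateau (g : ℕ) (cyc : List (List ℕ)) (v : ℕ → ℕ × ℕ) (c : ℕ → ℕ) (hc : ∀ n, c n < g)
    (s L : ℕ) (hrel : ∀ n, s ≤ n → n < s + L → Rel g cyc (v n) (v (n + 1)) (c n))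
    (hr : ∀ n, s ≤ n → n ≤ s + L → (v n).1 = (v s).1) (N : ℕ)
    (hN : ∀ D ∈ cyc, 0 < D.length → D.length ∣ N) :
    ∀ n, s < n → n + N < s + L → c (n + N) = c n := by
  intro n hn hnN
  obtain ⟨D, hD⟩ : ∃ D, D = cyc.getD (v s).1 [] := ⟨_, rfl⟩
  have hstep : ∀ n, s ≤ n → n < s + L → D.getD (v n).2 g = c n ∧
      (v (n + 1)).2 = ((v n).2 + 1) % D.length := by
    intro n h1 h2
    have e1 := hr n h1 h2.le
    have e2 := hr (n + 1) (by omega) (by omega)
    rcases hrel n h1 h2 with h | h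
    · omega
    · obtain ⟨_, h4, h5⟩ := h
      rw [e2, ← hD] at h4 h5
      exact ⟨h4, h5⟩
  have hP : 0 < D.length := by
    by_contra hcon
    have h0 : D = [] := List.length_eq_zero_iff.1 (by omega)
    have h1 := (hstep s le_rfl (by omega)).1
    rw [h0] at h1
    have h2 := hc s
    simp only [List.getD_nil] at h1
    omega
  have hmem : D ∈ cyc := by
    rw [hD] at hP ⊢
    by_cases hlt : (v s).1 < cyc.length
    · rw [List.getD_eq_getElem _ _ hlt]
      exact List.getElem_mem hlt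
    · rw [List.getD_eq_default _ _ (by omega)] at hP
      simp at hP
  obtain ⟨e, he⟩ := hN D hmem hP
  have hphase : ∀ i, s + 1 + i ≤ s + L → (v (s + 1 + i)).2 = ((v (s + 1)).2 + i) % D.length := by
    intro i
    induction i with
    | zero =>
      intro h
      have h1 := (hstep s le_rfl (by omega)).2
      rw [add_zero, add_zero, Nat.mod_eq_of_lt]
      rw [h1]
      exact Nat.mod_lt _ hP
    | succ i ih =>
      intro h
      have h1 := (hstep (s + 1 + i) (by omega) (by omega)).2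
      rw [← add_assoc, h1, ih (by omega), Nat.mod_add_mod, add_assoc]
  obtain ⟨i, rfl⟩ : ∃ i, n = s + 1 + i := ⟨n - (s + 1), by omega⟩
  rw [← (hstep (s + 1 + i) (by omega) (by omega)).1, ← (hstep (s + 1 + i + N) (by omega) (by omega)).1,
    hphase i (by omega), show s + 1 + i + N = s + 1 + (i + N) by ring, hphase (i + N) (by omega), he,
    ← add_assoc, Nat.add_mul_mod_self_left]

/-- a common multiple of the lengths of the cycles -/
def per (cyc : List (List ℕ)) : ℕ := ((cyc.map List.length).sum).factorial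

lemma per_dvd (cyc : List (List ℕ)) : ∀ D ∈ cyc, 0 < D.length → D.length ∣ per cyc := by
  intro D hD h0
  refine Nat.dvd_factorial h0 ?_
  exact List.single_le_sum (fun _ _ => Nat.zero_le _) _ (List.mem_map.2 ⟨D, hD, rfl⟩)

/-- **the block stands infinitely often in the multiples** -/
theorem exists_occ (g k w M : ℕ) (hg : 2 ≤ g) (hk : 1 ≤ k) (cyc : List (List ℕ)) (T : Tr)
    (hV : Valid g (g ^ (k - 1)) w M cyc T) (α : ℝ) (hα : Irrational α) (n₀ : ℕ) :
    ∃ n, n₀ ≤ n ∧ ¬ Free g k w M α n := by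
  by_contra hcon
  push Not at hcon
  have hg0 : 0 < g := by omega
  have hg' : (1 : ℝ) < g := by exact_mod_cast (by omega : 1 < g)
  obtain ⟨v, hv⟩ : ∃ v : ℕ → ℕ × ℕ, v = fun n => T.ev (xs g α n) := ⟨_, rfl⟩
  have hrel : ∀ n, n₀ ≤ n → Rel g cyc (v n) (v (n + 1)) (cs g α n) := by
    intro n hn
    rw [hv]
    exact step g k w M hg0 hk cyc T hV α hα n (hcon n hn)
  have hanti : ∀ n, n₀ ≤ n → (v (n + 1)).1 ≤ (v n).1 := by
    intro n hn
    rcases hrel n hn with h | h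
    · exact h.le
    · exact h.1.le
  have hanti2 : ∀ n, n₀ ≤ n → ∀ i, (v (n + i)).1 ≤ (v n).1 := by
    intro n hn i
    induction i with
    | zero => exact le_rfl
    | succ i ih => exact (hanti (n + i) (by omega)).trans ih
  -- the smallest rank
  obtain ⟨n₁, hn₁, hmin⟩ : ∃ n₁, n₀ ≤ n₁ ∧ ∀ n, n₀ ≤ n → (v n₁).1 ≤ (v n).1 := by
    classical
    have hex : ∃ r, ∃ n, n₀ ≤ n ∧ (v n).1 = r := ⟨_, n₀, le_rfl, rfl⟩
    obtain ⟨n₁, h1, h2⟩ := Nat.find_spec hex
    refine ⟨n₁, h1, fun n hn => ?_⟩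
    rw [h2]
    exact Nat.find_min' hex ⟨n, hn, rfl⟩
  have hconst : ∀ n, n₁ ≤ n → (v n).1 = (v n₁).1 := by
    intro n hn
    obtain ⟨i, rfl⟩ := Nat.exists_eq_add_of_le hn
    exact le_antisymm (hanti2 n₁ hn₁ i) (hmin _ (by omega))
  have hper : ∀ n, n₁ < n → cs g α (n + per cyc) = cs g α n := by
    intro n hn
    exact plateau g cyc v (cs g α) (cs_lt g hg0 α) n₁ (n + per cyc + 1) (fun n h1 _ => hrel n (by omega))
      (fun n h1 _ => hconst n h1) (per cyc) (per_dvd cyc) n hn (by omega)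
  have hclose : ∀ L : ℕ, |xs g α (n₁ + 1 + per cyc) - xs g α (n₁ + 1)| * (g : ℝ) ^ L ≤ 1 := by
    intro L
    apply xs_close g hg0
    intro i _
    rw [show n₁ + 1 + per cyc + i = n₁ + 1 + i + per cyc by ring]
    exact hper _ (by omega)
  have heq : xs g α (n₁ + 1 + per cyc) = xs g α (n₁ + 1) := by
    by_contra hne
    have h1 : 0 < |xs g α (n₁ + 1 + per cyc) - xs g α (n₁ + 1)| := abs_pos.2 (sub_ne_zero.2 hne)
    obtain ⟨L, hL⟩ := pow_unbounded_of_one_lt (1 / |xs g α (n₁ + 1 + per cyc) - xs g α (n₁ + 1)|) hg'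
    rw [div_lt_iff₀ h1] at hL
    have := hclose L
    linarith [mul_comm ((g : ℝ) ^ L) (|xs g α (n₁ + 1 + per cyc) - xs g α (n₁ + 1)|)]
  -- so `α` is rational
  have hper1 : 1 ≤ per cyc := Nat.factorial_pos _
  have h1 : α * ((g : ℝ) ^ (n₁ + 1 + per cyc) - (g : ℝ) ^ (n₁ + 1)) =
      ((⌊α * (g : ℝ) ^ (n₁ + 1 + per cyc)⌋ - ⌊α * (g : ℝ) ^ (n₁ + 1)⌋ : ℤ) : ℝ) := by
    have e1 : α * (g : ℝ) ^ (n₁ + 1 + per cyc) = ⌊α * (g : ℝ) ^ (n₁ + 1 + per cyc)⌋ +
      xs g α (n₁ + 1 + per cyc) := (Int.floor_add_fract _).symm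
    have e2 : α * (g : ℝ) ^ (n₁ + 1) = ⌊α * (g : ℝ) ^ (n₁ + 1)⌋ +
      xs g α (n₁ + 1) := (Int.floor_add_fract _).symm
    rw [heq] at e1
    push_cast
    linear_combination e1 - e2
  have h2 : (g : ℝ) ^ (n₁ + 1) < (g : ℝ) ^ (n₁ + 1 + per cyc) := pow_lt_pow_right₀ hg' (by omega)
  have h3 : (g : ℝ) ^ (n₁ + 1 + per cyc) - (g : ℝ) ^ (n₁ + 1) ≠ 0 := by linarith
  apply hα
  refine ⟨((⌊α * (g : ℝ) ^ (n₁ + 1 + per cyc)⌋ - ⌊α * (g : ℝ) ^ (n₁ + 1)⌋ : ℤ) : ℚ) /
    ((g : ℚ) ^ (n₁ + 1 + per cyc) - (g : ℚ) ^ (n₁ + 1)), ?_⟩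
  push_cast at h1 ⊢
  rw [div_eq_iff h3]
  exact h1.symm

/-- **gaps**: an approximation property of `α` bounds the gaps between the places at which the block
stands in a multiple -/
theorem gap_of (g k w M : ℕ) (hg : 2 ≤ g) (hk : 1 ≤ k) (cyc : List (List ℕ)) (T : Tr)
    (hV : Valid g (g ^ (k - 1)) w M cyc T) (α : ℝ) (hα : Irrational α)
    (hR : ∀ δ : ℝ, 0 < δ → δ ≤ 1 → ∃ L₀ : ℕ, ∀ L : ℕ, L₀ ≤ L → ∀ P : ℤ,
      Real.exp (-(δ * (L * Real.log g))) < |(((g : ℝ) ^ per cyc - 1) * α) * (g : ℝ) ^ L - P|)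
    (ε : ℝ) (hε : 0 < ε) : ∃ n₀ : ℕ, ∀ n : ℕ, n₀ ≤ n → ∃ i : ℕ, n ≤ i ∧
      ((i : ℝ) + 1) ≤ (1 + ε) * n ∧ ¬ Free g k w M α i := by
  have hg0 : 0 < g := by omega
  have hg' : (1 : ℝ) < g := by exact_mod_cast (by omega : 1 < g)
  have hg'0 : (0 : ℝ) < g := by linarith
  have hlg : 0 < Real.log g := Real.log_pos hg'
  -- the choice of `δ`
  obtain ⟨δ, hδ0, hδ1, hδ⟩ : ∃ δ : ℝ, 0 < δ ∧ δ ≤ 1 ∧ (1 + 2 * δ) ^ (T.maxr + 1) ≤ 1 + ε / 2 := by
    have h1 : Filter.Tendsto (fun δ : ℝ => (1 + 2 * δ) ^ (T.maxr + 1)) (nhds 0) (nhds ((1 + 2 * 0) ^ (T.maxr + 1))) := by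
      apply Continuous.tendsto
      fun_prop
    rw [mul_zero, add_zero, one_pow] at h1
    have h2 := (h1.eventually (Iio_mem_nhds (show (1 : ℝ) < 1 + ε / 2 by linarith)))
    obtain ⟨r, hr, h3⟩ := Metric.eventually_nhds_iff.1 h2
    refine ⟨min (r / 2) 1, by positivity, min_le_right _ _, le_of_lt (h3 ?_)⟩
    rw [Real.dist_eq, sub_zero, abs_of_pos (by positivity)]
    exact lt_of_le_of_lt (min_le_left _ _) (by linarith)
  obtain ⟨L₀, hL₀⟩ := hR δ hδ0 hδ1
  obtain ⟨N, hNd⟩ : ∃ N, N = per cyc := ⟨_, rfl⟩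
  obtain ⟨v, hv⟩ : ∃ v : ℕ → ℕ × ℕ, v = fun n => T.ev (xs g α n) := ⟨_, rfl⟩
  -- the length of a plateau
  have hplat : ∀ s L : ℕ, L₀ ≤ s → (∀ n, s ≤ n → n < s + L → Free g k w M α n) →
      (∀ n, s ≤ n → n ≤ s + L → (v n).1 = (v s).1) → (L : ℝ) ≤ N + 1 + δ * (s + 1) := by
    intro s L hs hfree hr
    by_contra hcon
    push Not at hcon
    have hLN : N + 1 ≤ L := by
      have : (N : ℝ) + 1 ≤ L := by
        have : 0 ≤ δ * (s + 1) := by positivity
        linarith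
      exact_mod_cast this
    have h1 := plateau g cyc v (cs g α) (cs_lt g hg0 α) s L (fun n h1 h2 => by
      rw [hv]
      exact step g k w M hg0 hk cyc T hV α hα n (hfree n h1 h2)) hr N (hNd ▸ per_dvd cyc)
    have h2 : |xs g α (s + 1 + N) - xs g α (s + 1)| * (g : ℝ) ^ (L - N - 1) ≤ 1 := by
      apply xs_close g hg0
      intro i hi
      rw [show s + 1 + N + i = s + 1 + i + N by ring]
      exact h1 _ (by omega) (by omega)
    have h3 := hL₀ (s + 1) (by omega) (⌊α * (g : ℝ) ^ (s + 1 + N)⌋ - ⌊α * (g : ℝ) ^ (s + 1)⌋)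
    have e1 : α * (g : ℝ) ^ (s + 1 + N) = ⌊α * (g : ℝ) ^ (s + 1 + N)⌋ +
      xs g α (s + 1 + N) := (Int.floor_add_fract _).symm
    have e2 : α * (g : ℝ) ^ (s + 1) = ⌊α * (g : ℝ) ^ (s + 1)⌋ +
      xs g α (s + 1) := (Int.floor_add_fract _).symm
    have e3 : (((g : ℝ) ^ per cyc - 1) * α) * (g : ℝ) ^ (s + 1) -
        ((⌊α * (g : ℝ) ^ (s + 1 + N)⌋ - ⌊α * (g : ℝ) ^ (s + 1)⌋ : ℤ) : ℝ) =
        xs g α (s + 1 + N) - xs g α (s + 1) := by
      rw [← hNd]
      push_cast
      have hp : (g : ℝ) ^ (s + 1 + N) = (g : ℝ) ^ (s + 1) * (g : ℝ) ^ N := pow_add _ _ _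
      linear_combination e1 - e2 - α * hp
    rw [e3] at h3
    have h4 : Real.exp (-(δ * (((s + 1 : ℕ) : ℝ) * Real.log g))) * (g : ℝ) ^ (L - N - 1) < 1 := by
      refine lt_of_lt_of_le ?_ h2
      exact mul_lt_mul_of_pos_right h3 (by positivity)
    have h5 : (g : ℝ) ^ (L - N - 1) = Real.exp (((L - N - 1 : ℕ) : ℝ) * Real.log g) := by
      rw [mul_comm, Real.exp_mul, Real.exp_log hg'0, Real.rpow_natCast]
    rw [h5, ← Real.exp_add, Real.exp_lt_one_iff] at h4
    have h6 : ((L - N - 1 : ℕ) : ℝ) = (L : ℝ) - N - 1 := by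
      rw [Nat.cast_sub (by omega), Nat.cast_sub (by omega)]
      push_cast
      ring
    rw [h6] at h4
    push_cast at h4
    have h7 : ((L : ℝ) - N - 1 - δ * (s + 1)) * Real.log g < 0 := by linarith
    have h8 : 0 ≤ (L : ℝ) - N - 1 - δ * (s + 1) := by linarith
    exact absurd h7 (not_lt.2 (mul_nonneg h8 hlg.le))
  -- several plateaus
  obtain ⟨S₀, hS₀⟩ : ∃ S₀ : ℕ, S₀ = max L₀ (⌈((N : ℝ) + 3) / δ⌉₊ + 1) := ⟨_, rfl⟩
  have hbig : ∀ s : ℕ, S₀ ≤ s → (s : ℝ) + (N + 1 + δ * (s + 1)) + 1 ≤ (1 + 2 * δ) * s := by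
    intro s hs
    have h1 : ⌈((N : ℝ) + 3) / δ⌉₊ ≤ s := by
      have := le_max_right L₀ (⌈((N : ℝ) + 3) / δ⌉₊ + 1)
      omega
    have h2 : ((N : ℝ) + 3) / δ ≤ s := (Nat.le_ceil _).trans (by exact_mod_cast h1)
    rw [div_le_iff₀ hδ0] at h2
    nlinarith
  have hmany : ∀ R s L : ℕ, S₀ ≤ s → (v s).1 ≤ R → (∀ n, s ≤ n → n < s + L → Free g k w M α n) →
      ((s + L : ℕ) : ℝ) ≤ (1 + 2 * δ) ^ (R + 1) * s := by
    intro R
    induction R with
    | zero =>
      intro s L hs hr hfree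
      have hanti : ∀ i, i ≤ L → (v (s + i)).1 = 0 := by
        intro i
        induction i with
        | zero => intro _; exact Nat.le_zero.1 hr
        | succ i ih =>
          intro hi
          have h1 := step g k w M hg0 hk cyc T hV α hα (s + i) (hfree _ (by omega) (by omega))
          have h2 := ih (by omega)
          rw [hv] at h2 ⊢
          simp only at h2 ⊢
          rw [← add_assoc]
          rcases h1 with h1 | h1
          · omega
          · rw [h1.1]; exact h2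
      have h1 := hplat s L (le_trans (by rw [hS₀]; exact le_max_left _ _) hs) hfree (fun n h1 h2 => by
        obtain ⟨i, rfl⟩ := Nat.exists_eq_add_of_le h1
        rw [hanti i (by omega)]
        exact (Nat.le_zero.1 hr).symm)
      have h2 := hbig s hs
      push_cast
      norm_num
      linarith
    | succ R ih =>
      intro s L hs hr hfree
      have hδ2 : 1 ≤ (1 + 2 * δ) ^ (R + 1) := one_le_pow₀ (by linarith)
      have hs0 : (0 : ℝ) ≤ s := Nat.cast_nonneg _
      by_cases hall : ∀ n, s ≤ n → n ≤ s + L → (v n).1 = (v s).1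
      · have h1 := hplat s L (le_trans (by rw [hS₀]; exact le_max_left _ _) hs) hfree hall
        have h2 := hbig s hs
        push_cast
        calc (s : ℝ) + L ≤ (1 + 2 * δ) * s := by linarith
          _ ≤ (1 + 2 * δ) ^ (R + 1) * ((1 + 2 * δ) * s) := by
              apply le_mul_of_one_le_left (by positivity) hδ2
          _ = (1 + 2 * δ) ^ (R + 1 + 1) * s := by ring
      · push Not at hall
        classical
        have hex : ∃ i, i ≤ L ∧ (v (s + i)).1 ≠ (v s).1 := by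
          obtain ⟨n, h1, h2, h3⟩ := hall
          exact ⟨n - s, by omega, by rwa [Nat.add_sub_cancel' h1]⟩
        obtain ⟨hi1, hi2⟩ := Nat.find_spec hex
        obtain ⟨i, hi⟩ : ∃ i, i = Nat.find hex := ⟨_, rfl⟩
        have hmin : ∀ j < i, (v (s + j)).1 = (v s).1 := by
          intro j hj
          by_contra hcon
          rw [hi] at hj
          exact Nat.find_min hex hj ⟨by omega, hcon⟩
        rw [← hi] at hi1 hi2
        have hi0 : 0 < i := by
          by_contra hcon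
          have : i = 0 := by omega
          rw [this] at hi2
          exact hi2 rfl
        -- the plateau up to `s + i - 1`
        have h1 := hplat s (i - 1) (le_trans (by rw [hS₀]; exact le_max_left _ _) hs)
          (fun n h1 h2 => hfree n h1 (by omega)) (fun n h1 h2 => by
            obtain ⟨j, rfl⟩ := Nat.exists_eq_add_of_le h1
            exact hmin j (by omega))
        have h2 := hbig s hs
        have h3 : (v (s + i)).1 ≤ R := by
          have h4 := step g k w M hg0 hk cyc T hV α hα (s + (i - 1)) (hfree _ (by omega) (by omega))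
          have h5 := hmin (i - 1) (by omega)
          have h6 : s + (i - 1) + 1 = s + i := by omega
          rw [h6] at h4
          rw [hv] at h5 hi2 hr ⊢
          simp only at h5 hi2 hr ⊢
          rcases h4 with h4 | h4
          · omega
          · exact absurd (h4.1.trans h5) hi2
        have h4 := ih (s + i) (L - i) (by omega) h3 (fun n h1 h2 => hfree n (by omega) (by omega))
        have h5 : s + i + (L - i) = s + L := by omega
        rw [h5] at h4
        have h6 : ((s + i : ℕ) : ℝ) ≤ (1 + 2 * δ) * s := by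
          have : ((i - 1 : ℕ) : ℝ) = (i : ℝ) - 1 := by
            rw [Nat.cast_sub (by omega)]
            simp
          rw [this] at h1
          push_cast
          linarith
        calc ((s + L : ℕ) : ℝ) ≤ (1 + 2 * δ) ^ (R + 1) * ((s + i : ℕ) : ℝ) := h4
          _ ≤ (1 + 2 * δ) ^ (R + 1) * ((1 + 2 * δ) * s) := by gcongr
          _ = (1 + 2 * δ) ^ (R + 1 + 1) * s := by ring
  -- the end
  refine ⟨max S₀ (⌈4 / ε⌉₊ + 1), fun n hn => ?_⟩
  have hnS : S₀ ≤ n := (le_max_left _ _).trans hn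
  have hnε : 4 / ε ≤ n := by
    have h1 := (le_max_right S₀ (⌈4 / ε⌉₊ + 1)).trans hn
    exact (Nat.le_ceil _).trans (by exact_mod_cast (by omega : ⌈4 / ε⌉₊ ≤ n))
  rw [div_le_iff₀ hε] at hnε
  by_contra hcon
  push Not at hcon
  obtain ⟨L, hL⟩ : ∃ L : ℕ, L = ⌊ε * n⌋₊ := ⟨_, rfl⟩
  have hL1 : (L : ℝ) ≤ ε * n := by rw [hL]; exact Nat.floor_le (by positivity)
  have hL2 : ε * n < L + 1 := by rw [hL]; exact Nat.lt_floor_add_one _
  have h1 := hmany T.maxr n L hnS (by rw [hv]; exact ev_le T _) (fun i h1 h2 => by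
    apply hcon i h1
    have : ((i + 1 : ℕ) : ℝ) ≤ ((n + L : ℕ) : ℝ) := by exact_mod_cast h2
    push_cast at this
    linarith)
  push_cast at h1
  have hn0 : (0 : ℝ) ≤ n := Nat.cast_nonneg _
  have h2 : (1 + 2 * δ) ^ (T.maxr + 1) * (n : ℝ) ≤ (1 + ε / 2) * n := by gcongr
  linarith

end Pool.Agent.K9h59.MD
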