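import Pool.Agent.K9h59.MD.B
import Pool.Agent.H820R3.DG.Gap

/-!
Algebraic numbers: the gaps between the places at which the block stands in a multiple.
-/

set_option autoImplicit false

namespace Pool.Agent.K9h59.MD

/-- the gap theorem for algebraic numbers -/
theorem gap_alg (g k w M : ℕ) (hg : 2 ≤ g) (hk : 1 ≤ k) (cyc : List (List ℕ)) (T : Tr)
    (hV : Valid g (g ^ (k - 1)) w M cyc T) (α : ℝ) (halg : IsAlgebraic ℚ α) (hα : Irrational α)
    (ε : ℝ) (hε : 0 < ε) : ∃ n₀ : ℕ, ∀ n : ℕ, n₀ ≤ n → ∃ i : ℕ, n ≤ i ∧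
      ((i : ℝ) + 1) ≤ (1 + ε) * n ∧ ¬ Free g k w M α i := by
  refine gap_of g k w M hg hk cyc T hV α hα (fun δ hδ hδ1 => ?_) ε hε
  have hper : 1 ≤ per cyc := Nat.factorial_pos _
  have h1 : (1 : ℕ) < g ^ per cyc := Nat.one_lt_pow (by omega) (by omega)
  have e : (g : ℝ) ^ per cyc - 1 = ((g ^ per cyc - 1 : ℕ) : ℝ) := by
    rw [Nat.cast_sub h1.le]
    push_cast
    rfl
  have halg' : IsAlgebraic ℚ (((g : ℝ) ^ per cyc - 1) * α) := by
    rw [e]
    exact (isAlgebraic_natCast _).mul halg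
  have hirr' : Irrational (((g : ℝ) ^ per cyc - 1) * α) := by
    rw [e]
    exact hα.natCast_mul (by omega)
  exact Pool.Agent.H820R3.DG.ridout hg halg' hirr' δ hδ hδ1

end Pool.Agent.K9h59.MD
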