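import Mathlib

/-!
Numbers all of whose small multiples avoid a digit.
-/

set_option autoImplicit false

namespace Pool.Agent.K9h59.MD

open Real

section
variable {B : ℕ}

/-- the sequence of the words `U` and `V` given by a set -/
noncomputable def wd (U V : Fin B) (S : Set ℕ) (n : ℕ) : Fin B := by
  classical exact if n ∈ S then V else U

lemma wd_mem (U V : Fin B) (S : Set ℕ) (n : ℕ) : wd U V S n = U ∨ wd U V S n = V := by
  unfold wd
  split_ifs
  · exact Or.inr rfl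
  · exact Or.inl rfl

/-- the tails -/
noncomputable def tl (a : ℕ → Fin B) (n : ℕ) : ℝ := ofDigits fun i => a (i + n)

lemma tl_bd (a : ℕ → Fin B) (n : ℕ) : 0 ≤ tl a n ∧ tl a n ≤ 1 :=
  ⟨ofDigits_nonneg _, ofDigits_le_one _⟩

lemma tl_eq (a : ℕ → Fin B) (n : ℕ) : (B : ℝ) * tl a n = (a n : ℕ) + tl a (n + 1) := by
  have hB : 0 < B := Fin.pos (a 0)
  have hB' : (B : ℝ) ≠ 0 := by
    have : (0 : ℝ) < B := by exact_mod_cast hB
    exact this.ne'
  unfold tl
  rw [ofDigits_eq_sum_add_ofDigits (fun i => a (i + n)) 1]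
  simp only [Finset.range_one, Finset.sum_singleton, ofDigitsTerm, zero_add, pow_one]
  have e : (fun i => a (i + 1 + n)) = fun i => a (i + (n + 1)) := by
    funext i
    rw [add_assoc, add_comm 1 n]
  rw [e]
  field_simp

lemma tl_int (a : ℕ → Fin B) (n : ℕ) : ∃ z : ℤ, tl a 0 * (B : ℝ) ^ n = z + tl a n := by
  induction n with
  | zero => exact ⟨0, by simp⟩
  | succ n ih =>
    obtain ⟨z, hz⟩ := ih
    refine ⟨B * z + (a n : ℕ), ?_⟩
    push_cast
    rw [pow_succ]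
    linear_combination (B : ℝ) * hz + tl_eq a n

lemma tl_irr (a : ℕ → Fin B) (h : Irrational (tl a 0)) (n : ℕ) : Irrational (tl a n) := by
  have hB : 0 < B := Fin.pos (a 0)
  obtain ⟨z, hz⟩ := tl_int a n
  have h1 : Irrational (tl a 0 * (B : ℝ) ^ n) := by
    have := h.mul_natCast (pow_pos hB n).ne'
    rwa [Nat.cast_pow] at this
  rw [hz] at h1
  exact h1.of_intCast_add z

/-- the tails determine the set -/
lemma tl_inj (U V : Fin B) (hUV : (U : ℕ) + 2 ≤ V ∨ (V : ℕ) + 2 ≤ U) :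
    Function.Injective fun S : Set ℕ => tl (wd U V S) 0 := by
  intro S T hST
  simp only at hST
  have key : ∀ n, tl (wd U V S) n = tl (wd U V T) n → wd U V S n = wd U V T n ∧
      tl (wd U V S) (n + 1) = tl (wd U V T) (n + 1) := by
    intro n hn
    have h1 := tl_eq (wd U V S) n
    have h2 := tl_eq (wd U V T) n
    rw [hn] at h1
    obtain ⟨a1, a2⟩ := tl_bd (wd U V S) (n + 1)
    obtain ⟨b1, b2⟩ := tl_bd (wd U V T) (n + 1)
    have h3 : ((wd U V S n : ℕ) : ℝ) = ((wd U V T n : ℕ) : ℝ) := by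
      rcases hUV with h | h
      · have h' : ((U : ℕ) : ℝ) + 2 ≤ (V : ℕ) := by exact_mod_cast h
        rcases wd_mem U V S n with e1 | e1 <;> rcases wd_mem U V T n with e2 | e2 <;>
          rw [e1, e2] <;> rw [e1] at h1 <;> rw [e2] at h2 <;> linarith
      · have h' : ((V : ℕ) : ℝ) + 2 ≤ (U : ℕ) := by exact_mod_cast h
        rcases wd_mem U V S n with e1 | e1 <;> rcases wd_mem U V T n with e2 | e2 <;>
          rw [e1, e2] <;> rw [e1] at h1 <;> rw [e2] at h2 <;> linarith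
    refine ⟨Fin.ext (by exact_mod_cast h3), ?_⟩
    linarith
  have hall : ∀ n, tl (wd U V S) n = tl (wd U V T) n := by
    intro n
    induction n with
    | zero => exact hST
    | succ n ih => exact (key n ih).2
  have hne : U ≠ V := by
    rintro rfl
    omega
  ext n
  have h1 := (key n (hall n)).1
  unfold wd at h1
  by_cases hS : n ∈ S <;> by_cases hT : n ∈ T
  · exact ⟨fun _ => hT, fun _ => hS⟩
  · rw [if_pos hS, if_neg hT] at h1
    exact absurd h1.symm hne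
  · rw [if_neg hS, if_pos hT] at h1
    exact absurd h1 hne
  · exact ⟨fun h => absurd h hS, fun h => absurd h hT⟩

/-- a family with an injective parametrisation by the sets has uncountably many irrational members -/
lemma uncountable_of (f : Set ℕ → ℝ) (hf : Function.Injective f) (P : ℝ → Prop)
    (hP : ∀ S, Irrational (f S) → P (f S)) : ¬ {x : ℝ | Irrational x ∧ P x}.Countable := by
  intro hc
  have h1 : (Set.range f).Countable := by
    refine (hc.union (Set.countable_range ((↑) : ℚ → ℝ))).mono ?_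
    rintro _ ⟨S, rfl⟩
    by_cases hS : Irrational (f S)
    · exact Or.inl ⟨hS, hP S hS⟩
    · exact Or.inr (not_not.1 hS)
  have h2 : Countable (Set ℕ) := by
    have := h1.to_subtype
    exact (Equiv.ofInjective f hf).countable_iff.2 this
  obtain ⟨e, he⟩ := h2
  exact Function.cantor_injective e he

end

/-- the finite check -/
def lowchk (g l d K U V : ℕ) : Bool :=
  [U, V].all fun w => [U, V].all fun w' => (List.range l).all fun i => (List.range K).all fun m =>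
    decide (m = 0) ||
    (let a := m * g ^ (i + 1) * (w * g ^ l + w') / (g ^ l * g ^ l)
     decide (a % g ≠ d) &&
      (decide (m * g ^ (i + 1) * (w * g ^ l + w' + 1) ≤ (a + 1) * (g ^ l * g ^ l)) ||
        (decide ((a + 1) % g ≠ d) &&
          decide (m * g ^ (i + 1) * (w * g ^ l + w' + 1) ≤ (a + 2) * (g ^ l * g ^ l)))))

theorem low (g l d K : ℕ) (hg : 0 < g) (hl : 0 < l) (U V : Fin (g ^ l))
    (hc : lowchk g l d K U V = true) (S : Set ℕ) (hirr : Irrational (tl (wd U V S) 0)) (m : ℕ)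
    (hm : 1 ≤ m) (hmK : m < K) (j : ℕ) (hj : 1 ≤ j) :
    ⌊(m * tl (wd U V S) 0) * (g : ℝ) ^ j⌋ % (g : ℤ) ≠ d := by
  obtain ⟨a, ha⟩ : ∃ a, a = wd U V S := ⟨_, rfl⟩
  rw [← ha] at hirr ⊢
  obtain ⟨n, i, hi, rfl⟩ : ∃ n i, i < l ∧ j = l * n + (i + 1) := by
    refine ⟨(j - 1) / l, (j - 1) % l, Nat.mod_lt _ hl, ?_⟩
    have := Nat.div_add_mod (j - 1) l
    omega
  obtain ⟨z, hz⟩ := tl_int a n
  have e1 : (m * tl a 0) * (g : ℝ) ^ (l * n + (i + 1)) =
      (((g : ℤ) * (m * g ^ i * z) : ℤ) : ℝ) + m * (g : ℝ) ^ (i + 1) * tl a n := by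
    have h1 : (g : ℝ) ^ (l * n + (i + 1)) = ((g ^ l : ℕ) : ℝ) ^ n * (g : ℝ) ^ (i + 1) := by
      rw [pow_add, pow_mul]
      push_cast
      rfl
    rw [h1]
    push_cast at hz ⊢
    rw [pow_succ]
    linear_combination (m : ℝ) * (g : ℝ) ^ i * (g : ℝ) * hz
  rw [e1, Int.floor_intCast_add, Int.mul_add_emod_self_left]
  obtain ⟨t, ht⟩ : ∃ t, t = tl a (n + 2) := ⟨_, rfl⟩
  have ht0 : 0 ≤ t := by rw [ht]; exact (tl_bd a _).1
  have ht1 : t < 1 := by
    rw [ht]
    exact lt_of_le_of_ne (tl_bd a _).2 (tl_irr a hirr _).ne_one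
  obtain ⟨w, hw⟩ : ∃ w : ℕ, w = (a n : ℕ) := ⟨_, rfl⟩
  obtain ⟨w', hw'⟩ : ∃ w' : ℕ, w' = (a (n + 1) : ℕ) := ⟨_, rfl⟩
  have e2 : ((g ^ l * g ^ l : ℕ) : ℝ) * tl a n = (w * g ^ l + w' : ℕ) + t := by
    have h1 := tl_eq a n
    have h2 := tl_eq a (n + 1)
    rw [← hw] at h1
    rw [← hw', show n + 1 + 1 = n + 2 by ring, ← ht] at h2
    push_cast at h1 h2 ⊢
    linear_combination (g : ℝ) ^ l * h1 + h2
  have hwm : w ∈ [(U : ℕ), (V : ℕ)] := by
    rcases wd_mem U V S n with h | h <;> rw [hw, ha, h] <;> simp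
  have hwm' : w' ∈ [(U : ℕ), (V : ℕ)] := by
    rcases wd_mem U V S (n + 1) with h | h <;> rw [hw', ha, h] <;> simp
  unfold lowchk at hc
  rw [List.all_eq_true] at hc
  have h1 := hc w hwm
  rw [List.all_eq_true] at h1
  have h2 := h1 w' hwm'
  rw [List.all_eq_true] at h2
  have h3 := h2 i (List.mem_range.2 hi)
  rw [List.all_eq_true] at h3
  have h4 := h3 m (List.mem_range.2 hmK)
  obtain ⟨q, hq⟩ : ∃ q, q = m * g ^ (i + 1) * (w * g ^ l + w') / (g ^ l * g ^ l) := ⟨_, rfl⟩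
  simp only [← hq, Bool.or_eq_true, Bool.and_eq_true, decide_eq_true_eq] at h4
  rcases h4 with h4 | ⟨h4, h5⟩
  · omega
  have hD : 0 < g ^ l * g ^ l := by positivity
  have hD' : (0 : ℝ) < ((g ^ l * g ^ l : ℕ) : ℝ) := by exact_mod_cast hD
  have hmg : (0 : ℝ) < ((m * g ^ (i + 1) : ℕ) : ℝ) := by
    have : 0 < m * g ^ (i + 1) := by positivity
    exact_mod_cast this
  have e3 : (m : ℝ) * (g : ℝ) ^ (i + 1) * tl a n * ((g ^ l * g ^ l : ℕ) : ℝ) =
      ((m * g ^ (i + 1) : ℕ) : ℝ) * ((w * g ^ l + w' : ℕ) + t) := by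
    rw [← e2]
    push_cast
    ring
  have hlo : (q : ℝ) ≤ m * (g : ℝ) ^ (i + 1) * tl a n := by
    have h6 : q * (g ^ l * g ^ l) ≤ m * g ^ (i + 1) * (w * g ^ l + w') := by
      rw [hq]
      exact Nat.div_mul_le_self _ _
    have h7 : (q : ℝ) * ((g ^ l * g ^ l : ℕ) : ℝ) ≤
        ((m * g ^ (i + 1) : ℕ) : ℝ) * ((w * g ^ l + w' : ℕ) : ℝ) := by exact_mod_cast h6
    by_contra hcon
    push Not at hcon
    have h8 := mul_lt_mul_of_pos_right hcon hD'
    rw [e3] at h8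
    nlinarith [mul_nonneg hmg.le ht0]
  have hhi : ∀ r : ℕ, m * g ^ (i + 1) * (w * g ^ l + w' + 1) ≤ r * (g ^ l * g ^ l) →
      m * (g : ℝ) ^ (i + 1) * tl a n < r := by
    intro r hr
    have h7 : ((m * g ^ (i + 1) : ℕ) : ℝ) * (((w * g ^ l + w' : ℕ) : ℝ) + 1) ≤
        (r : ℝ) * ((g ^ l * g ^ l : ℕ) : ℝ) := by exact_mod_cast hr
    by_contra hcon
    push Not at hcon
    have h8 := mul_le_mul_of_nonneg_right hcon hD'.le
    rw [e3] at h8
    nlinarith [mul_lt_mul_of_pos_left ht1 hmg]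
  have hfl : ∀ r : ℕ, (r : ℝ) ≤ m * (g : ℝ) ^ (i + 1) * tl a n →
      m * (g : ℝ) ^ (i + 1) * tl a n < (r : ℝ) + 1 → r % g ≠ d →
      ⌊m * (g : ℝ) ^ (i + 1) * tl a n⌋ % (g : ℤ) ≠ d := by
    intro r h8 h9 h10
    have h11 : ⌊m * (g : ℝ) ^ (i + 1) * tl a n⌋ = (r : ℤ) := by
      rw [Int.floor_eq_iff]
      push_cast
      exact ⟨h8, h9⟩
    rw [h11]
    intro h12
    apply h10
    exact_mod_cast h12
  rcases h5 with h5 | ⟨h5, h6⟩
  · have h7 := hhi (q + 1) h5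
    push_cast at h7
    exact hfl q hlo h7 h4
  · have h7 := hhi (q + 2) h6
    push_cast at h7
    by_cases h8 : m * (g : ℝ) ^ (i + 1) * tl a n < (q : ℝ) + 1
    · exact hfl q hlo h8 h4
    · push Not at h8
      refine hfl (q + 1) (by push_cast; exact h8) (by push_cast; linarith) h5

/-- **uncountably many irrational numbers all of whose multiples `m α`, `m < K`, avoid the digit** -/
theorem low_uncountable (g l d K : ℕ) (hg : 0 < g) (hl : 0 < l) (U V : ℕ) (hU : U < g ^ l)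
    (hV : V < g ^ l) (hUV : U + 2 ≤ V ∨ V + 2 ≤ U) (hc : lowchk g l d K U V = true) :
    ¬ {x : ℝ | Irrational x ∧ ∀ m : ℕ, 1 ≤ m → m < K → ∀ j : ℕ, 1 ≤ j →
      ⌊(m * x) * (g : ℝ) ^ j⌋ % (g : ℤ) ≠ d}.Countable := by
  refine uncountable_of (fun S => tl (wd (⟨U, hU⟩ : Fin (g ^ l)) ⟨V, hV⟩ S) 0)
    (tl_inj _ _ hUV) _ (fun S hS m hm hmK j hj => ?_)
  exact low g l d K hg hl ⟨U, hU⟩ ⟨V, hV⟩ hc S hS m hm hmK j hj

end Pool.Agent.K9h59.MD
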