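import Pool.Agent.K9h59.MD.C
import Pool.Agent.K9h59.MD.D

/-!
Certificates for the ten decimal digits.
-/

set_option autoImplicit false
set_option maxRecDepth 100000

namespace Pool.Agent.K9h59.MD

/-- the tree for the digit `0` -/
def T0 : Tr :=
  .node 1 2 (.node 1 4 (.node 1 8 (.node 1 15 (.node 1 28 (.node 1 45 (.node 1 72 (.leaf 0 0
  [1,0,5,0,5,2,5,0,5,0]) (.leaf 1 0 [1,0,5,0,5,2,5,0,5,0])) (.node 1 36 (.leaf 2 0 [1,0,5,0,5,2,5,0,5,0]) (.leaf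
  3 0 [1,0,5,0,5,2,5,0,5,72]))) (.node 2 45 (.node 1 24 (.leaf 4 0 [1,0,5,0,5,2,5,0,5,72]) (.leaf 5 0
  [1,0,5,0,5,2,5,0,5,0])) (.node 1 18 (.leaf 6 0 [1,0,5,0,5,2,5,0,5,0]) (.node 1 16 (.leaf 7 0
  [1,0,5,36,5,2,5,0,5,0]) (.leaf 8 0 [1,0,5,36,5,2,5,0,5,0]))))) (.node 4 45 (.node 1 14 (.node 5 72 (.leaf 9 0
  [1,0,5,36,5,2,5,0,5,0]) (.leaf 10 0 [1,0,5,36,5,2,5,0,5,0])) (.node 1 12 (.leaf 11 0 [1,28,5,36,5,2,5,0,5,0])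
  (.leaf 12 0 [1,28,5,0,5,2,5,24,5,0]))) (.node 7 72 (.node 1 11 (.leaf 13 0 [1,28,5,0,5,2,5,24,5,0]) (.leaf 14
  0 [1,28,5,0,5,2,5,24,5,11])) (.node 3 28 (.leaf 15 0 [1,28,5,0,5,2,5,24,5,11]) (.node 1 9 (.leaf 16 0
  [1,0,5,0,5,2,5,24,5,11]) (.leaf 109 0 [1,9,5,45,5,2,5,24,5,11])))))) (.node 13 72 (.node 11 72 (.node 5 36
  (.node 2 15 (.leaf 110 0 [1,9,5,16,5,2,5,45,5,11]) (.leaf 32 0 [1,9,5,16,5,2,5,0,5,11])) (.node 1 7 (.leaf 50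
  2 [1,9,5,16,5,2,5,0,5,11]) (.leaf 111 0 [1,9,5,16,5,2,5,7,5,11]))) (.node 1 6 (.node 7 45 (.leaf 112 0
  [1,9,5,16,5,2,5,7,5,11]) (.leaf 125 0 [1,9,5,16,5,2,5,7,5,11])) (.node 8 45 (.leaf 126 0
  [1,9,5,16,5,2,5,7,5,11]) (.node 5 28 (.leaf 127 0 [1,9,5,16,5,2,5,7,5,11]) (.leaf 128 0
  [1,9,5,16,5,2,5,7,5,11]))))) (.node 5 24 (.node 3 16 (.node 2 11 (.leaf 129 0 [1,9,5,16,5,2,5,7,5,11]) (.leaf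
  130 0 [1,9,5,16,5,2,5,7,5,12])) (.node 7 36 (.leaf 70 0 [1,9,5,0,5,2,5,7,5,12]) (.node 1 5 (.leaf 131 0
  [1,9,5,72,5,2,5,7,5,12]) (.leaf 117 0 [1,9,0,72,12,2,0,7,11,12])))) (.node 2 9 (.node 3 14 (.leaf 72 0
  [1,9,0,0,12,2,0,7,11,12]) (.leaf 118 0 [1,9,0,28,12,2,0,7,11,12])) (.node 17 72 (.leaf 21 0
  [1,0,9,28,12,2,45,7,11,12]) (.node 11 45 (.leaf 100 0 [1,0,9,28,12,2,45,7,11,12]) (.leaf 108 0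
  [1,0,9,28,12,2,0,7,11,12]))))))) (.node 3 8 (.node 14 45 (.node 5 18 (.node 4 15 (.node 19 72 (.leaf 34 0
  [1,8,9,0,0,2,8,7,11,0]) (.leaf 35 0 [1,8,9,0,0,2,8,7,11,0])) (.node 3 11 (.leaf 36 0 [1,8,9,0,0,2,8,7,11,0])
  (.leaf 37 0 [1,8,9,0,0,2,8,7,0,0]))) (.node 13 45 (.node 2 7 (.leaf 50 4 [1,8,9,0,0,2,8,7,0,0]) (.leaf 63 0
  [1,8,9,0,7,2,8,11,0,28])) (.node 7 24 (.leaf 64 0 [1,8,9,0,7,2,8,11,0,28]) (.node 11 36 (.leaf 65 0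
  [1,8,9,0,7,2,8,11,0,28]) (.leaf 66 0 [1,8,9,0,7,2,8,11,0,28]))))) (.node 25 72 (.node 23 72 (.node 5 16 (.leaf
  67 0 [1,8,9,0,7,2,8,11,0,28]) (.leaf 71 0 [1,8,9,0,7,2,8,11,0,28])) (.node 9 28 (.leaf 73 0
  [1,8,9,0,7,2,8,11,0,28]) (.node 1 3 (.leaf 74 0 [1,8,9,0,7,2,8,11,0,0]) (.leaf 17 0
  [1,8,0,3,7,2,8,11,6,15])))) (.node 5 14 (.node 16 45 (.leaf 18 0 [1,8,0,3,7,2,8,11,6,15]) (.leaf 19 0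
  [1,8,0,3,7,2,8,11,6,15])) (.node 13 36 (.leaf 20 0 [1,8,0,3,7,2,8,11,6,15]) (.node 4 11 (.leaf 132 0
  [1,8,72,3,7,2,8,11,6,15]) (.leaf 140 0 [1,8,72,3,7,2,8,15,6,15])))))) (.node 31 72 (.node 2 5 (.node 7 18
  (.node 17 45 (.leaf 22 0 [1,15,0,3,7,2,11,15,6,15]) (.leaf 24 0 [1,15,0,3,7,2,11,15,6,15])) (.node 11 28
  (.leaf 25 0 [1,15,0,3,7,2,11,15,6,15]) (.leaf 95 0 [1,15,0,3,7,2,11,15,6,15]))) (.node 5 12 (.node 29 72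
  (.leaf 96 0 [1,36,0,3,7,2,11,0,6,16]) (.leaf 97 0 [1,36,0,3,7,2,11,0,6,16])) (.node 19 45 (.leaf 33 0
  [1,0,0,3,7,2,11,0,6,16]) (.node 3 7 (.leaf 50 3 [1,0,0,3,7,2,11,0,6,16]) (.leaf 98 0
  [1,7,0,3,16,2,11,0,6,16]))))) (.node 13 28 (.node 4 9 (.node 7 16 (.leaf 99 0 [1,7,0,3,16,2,11,0,6,16]) (.leaf
  68 0 [1,7,0,3,0,2,11,0,6,0])) (.node 5 11 (.leaf 135 0 [1,7,45,3,9,2,11,0,6,18]) (.node 11 24 (.leaf 136 0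
  [1,7,45,3,9,2,28,0,6,18]) (.leaf 137 0 [1,7,45,3,9,2,28,0,6,18])))) (.node 17 36 (.node 7 15 (.leaf 138 0
  [1,7,45,3,9,2,45,0,6,18]) (.leaf 101 0 [1,7,0,3,9,2,0,0,6,18])) (.node 35 72 (.leaf 105 0
  [1,7,0,3,9,2,0,0,6,18]) (.node 22 45 (.leaf 106 0 [1,7,0,3,9,2,0,0,6,18]) (.leaf 107 0
  [1,7,0,3,9,2,0,0,6,18])))))))) (.node 53 72 (.node 28 45 (.node 9 16 (.node 8 15 (.node 37 72 (.node 23 45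
  (.leaf 40 0 [1,7,4,3,9,11,0,4,0,0]) (.leaf 41 0 [1,7,4,3,9,11,0,4,0,0])) (.node 19 36 (.leaf 42 0
  [1,7,4,3,9,11,0,4,0,0]) (.leaf 43 0 [1,7,4,3,9,11,72,4,0,0]))) (.node 13 24 (.node 15 28 (.leaf 44 0
  [1,7,4,3,9,11,72,4,0,0]) (.leaf 45 0 [1,7,4,3,9,11,72,4,0,0])) (.node 6 11 (.leaf 46 0 [1,7,4,3,9,11,0,4,0,0])
  (.node 5 9 (.leaf 47 0 [1,7,4,3,9,0,0,4,0,0]) (.leaf 48 0 [1,7,4,3,11,9,0,4,0,45]))))) (.node 7 12 (.node 4 7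
  (.node 41 72 (.leaf 49 0 [1,7,4,3,11,9,0,4,0,45]) (.leaf 50 0 [1,7,4,3,11,9,0,4,0,45])) (.node 26 45 (.leaf
  123 0 [1,45,4,3,11,9,0,4,7,45]) (.leaf 88 0 [1,0,4,3,11,9,0,4,7,0]))) (.node 3 5 (.node 43 72 (.leaf 113 0
  [1,0,4,3,11,9,0,4,7,24]) (.leaf 114 0 [1,0,4,3,11,9,0,4,7,24])) (.node 17 28 (.leaf 115 0
  [1,0,4,3,11,9,0,4,7,24]) (.node 11 18 (.leaf 116 0 [1,0,4,3,11,9,0,4,7,24]) (.leaf 119 0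
  [1,0,4,3,11,9,0,4,7,24])))))) (.node 49 72 (.node 9 14 (.node 7 11 (.node 5 8 (.leaf 120 0
  [1,0,4,3,11,9,0,4,7,24]) (.leaf 90 0 [1,0,4,3,11,9,0,4,7,0])) (.node 23 36 (.leaf 91 0 [1,0,4,3,0,9,0,4,7,0])
  (.leaf 92 0 [1,0,4,3,0,9,0,4,7,0]))) (.node 47 72 (.node 29 45 (.leaf 121 0 [1,0,4,3,28,9,0,4,7,28]) (.leaf
  122 0 [1,0,4,3,28,9,0,4,7,28])) (.node 2 3 (.leaf 124 0 [1,0,4,3,28,9,0,4,7,28]) (.node 19 28 (.leaf 141 0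
  [1,6,4,11,15,16,3,4,7,28]) (.leaf 26 0 [1,6,4,11,15,16,3,4,7,0]))))) (.node 32 45 (.node 31 45 (.node 11 16
  (.leaf 27 0 [1,6,4,11,15,16,3,4,7,0]) (.leaf 28 0 [1,6,4,11,15,0,3,4,7,0])) (.node 25 36 (.leaf 29 0
  [1,6,4,11,15,0,3,4,7,0]) (.node 17 24 (.leaf 30 0 [1,6,4,11,15,72,3,4,7,0]) (.leaf 31 0
  [1,6,4,11,15,0,3,4,7,0])))) (.node 13 18 (.node 5 7 (.leaf 50 1 [1,6,4,11,15,0,3,4,7,0]) (.leaf 51 0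
  [1,6,4,11,15,7,3,4,15,0])) (.node 8 11 (.leaf 142 0 [1,6,4,11,15,7,3,4,15,36]) (.node 11 15 (.leaf 133 0
  [1,6,4,0,15,7,3,4,15,36]) (.leaf 134 0 [1,6,4,0,36,7,3,4,0,36]))))))) (.node 13 15 (.node 13 16 (.node 7 9
  (.node 34 45 (.node 3 4 (.leaf 139 0 [1,6,4,0,36,7,3,4,0,36]) (.leaf 53 0 [1,6,11,8,0,7,3,0,8,0])) (.node 55
  72 (.leaf 54 0 [1,6,11,8,0,7,3,0,8,0]) (.leaf 55 0 [1,6,11,8,0,7,3,0,8,0]))) (.node 19 24 (.node 11 14 (.leaf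
  102 0 [1,6,11,8,0,7,3,9,8,45]) (.leaf 103 0 [1,6,11,8,0,7,3,9,8,45])) (.node 4 5 (.leaf 104 0
  [1,6,11,8,0,7,3,9,8,45]) (.node 29 36 (.leaf 57 0 [1,6,11,8,0,7,3,9,8,0]) (.leaf 58 0
  [1,6,11,8,0,7,3,9,8,0]))))) (.node 5 6 (.node 59 72 (.node 9 11 (.leaf 59 0 [1,6,11,8,0,7,3,9,8,0]) (.leaf 60
  0 [1,6,18,8,0,7,3,9,8,0])) (.node 23 28 (.leaf 61 0 [1,6,18,8,0,7,3,9,8,0]) (.node 37 45 (.leaf 62 0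
  [1,6,18,8,0,7,3,9,8,0]) (.leaf 75 0 [1,6,18,8,0,7,3,9,8,0])))) (.node 61 72 (.node 38 45 (.leaf 38 0
  [1,11,0,8,0,7,3,9,8,0]) (.leaf 39 0 [1,11,0,8,0,7,3,9,8,0])) (.node 6 7 (.leaf 50 5 [1,11,0,8,0,7,3,9,8,0])
  (.node 31 36 (.leaf 76 0 [1,11,7,8,0,12,3,9,8,0]) (.leaf 143 0 [1,11,7,8,72,12,3,9,8,72])))))) (.node 67 72
  (.node 65 72 (.node 8 9 (.node 7 8 (.leaf 144 0 [1,11,7,8,72,12,3,9,8,72]) (.leaf 23 0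
  [1,11,7,0,0,12,3,9,0,0])) (.node 25 28 (.leaf 78 0 [1,11,7,18,45,12,3,28,9,0]) (.leaf 79 0
  [1,11,7,18,45,12,3,0,9,0]))) (.node 41 45 (.node 10 11 (.leaf 80 0 [1,11,7,18,45,12,3,0,9,0]) (.leaf 81 0
  [1,16,7,18,45,12,3,0,9,0])) (.node 11 12 (.leaf 82 0 [1,16,7,18,0,12,3,0,9,0]) (.node 13 14 (.leaf 83 0
  [1,16,7,18,0,0,3,24,9,0]) (.leaf 84 0 [1,16,7,18,0,0,3,24,9,0]))))) (.node 23 24 (.node 15 16 (.node 14 15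
  (.leaf 85 0 [1,16,7,18,0,0,3,24,9,0]) (.leaf 86 0 [1,16,7,18,0,0,3,24,9,0])) (.node 17 18 (.leaf 69 0
  [1,0,7,18,0,0,3,24,9,0]) (.node 43 45 (.leaf 87 0 [1,36,7,28,0,0,3,24,9,0]) (.leaf 89 0
  [1,36,7,28,0,0,3,24,9,0])))) (.node 35 36 (.node 27 28 (.leaf 93 0 [1,36,7,28,0,0,3,0,9,0]) (.leaf 52 0
  [1,36,7,0,0,0,3,0,9,0])) (.node 44 45 (.leaf 56 0 [1,0,7,0,0,72,3,0,9,0]) (.node 71 72 (.leaf 77 0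
  [1,0,7,0,0,72,3,0,9,0]) (.leaf 94 0 [1,0,7,0,0,0,3,0,9,0]))))))))

/-- the cycles for the digit `0` -/
def C0 : List (List ℕ) :=
  [[], [], [], [], [], [], [], [], [], [], [], [], [], [], [], [], [1], [], [], [], [], [], [], [8], [], [], [],
  [], [], [], [], [], [], [], [], [], [], [], [], [], [], [], [], [], [], [], [], [5], [], [], [5, 7, 1, 4, 2,
  8], [], [], [], [], [7], [], [], [], [], [], [], [], [], [], [], [], [], [4], [], [], [], [], [], [3], [], [],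
  [], [], [], [], [], [], [], [], [], [], [], [], [], [], [], [], [], [9], [], [], [], [], [], [], [], [], [],
  [], [], [], [], [], [], [], [], [], [], [], [], [], [], [2], [], [], [], [], [], [6], [], [], [], [], [], [],
  [], [], [], [], [], [], [], [], [], [], [], [], [], []]

theorem V0 : Valid 10 (10 ^ (1 - 1)) 0 72 C0 T0 := by
  unfold Valid
  constructor <;> decide +kernel

/-- the tree for the digit `1` -/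
def T1 : Tr :=
  .node 1 2 (.node 1 4 (.node 2 15 (.node 1 15 (.node 1 32 (.leaf 0 0 [0,1,0,0,0,0,0,0,0,0]) (.node 1 16 (.leaf
  1 0 [32,1,0,0,0,32,0,0,0,0]) (.leaf 2 0 [16,1,0,0,0,16,0,0,0,0]))) (.node 3 32 (.node 1 11 (.leaf 3 0
  [15,1,15,0,15,16,15,0,15,0]) (.leaf 4 0 [11,1,15,0,15,16,15,0,15,0])) (.node 1 8 (.leaf 5 0
  [11,1,15,0,15,16,15,0,15,32]) (.leaf 6 0 [8,1,15,0,15,8,15,0,15,0])))) (.node 2 11 (.node 5 32 (.leaf 7 0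
  [8,1,0,0,0,8,0,0,0,0]) (.node 1 6 (.leaf 8 0 [8,1,0,32,0,8,0,0,32,0]) (.leaf 9 0 [6,1,0,32,0,6,0,0,32,0])))
  (.node 1 5 (.node 3 16 (.leaf 10 0 [6,1,0,32,0,6,0,0,32,11]) (.leaf 11 0 [6,1,0,16,0,6,0,0,16,11])) (.node 7
  32 (.leaf 12 0 [5,1,5,16,5,6,5,0,5,11]) (.leaf 56 0 [5,1,5,16,5,6,5,32,5,11]))))) (.node 4 11 (.node 9 32
  (.node 4 15 (.leaf 32 0 [4,1,5,0,5,4,5,0,5,11]) (.node 3 11 (.leaf 33 0 [4,1,5,0,5,4,5,0,5,11]) (.leaf 35 0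
  [4,1,5,0,5,4,5,0,5,0]))) (.node 1 3 (.node 5 16 (.leaf 36 0 [4,1,5,0,5,4,5,0,5,0]) (.leaf 37 0
  [4,1,5,0,5,4,5,0,5,0])) (.node 11 32 (.leaf 47 0 [4,1,5,0,5,4,5,0,5,0]) (.leaf 44 0 [4,1,5,0,5,4,5,0,5,0]))))
  (.node 7 16 (.node 2 5 (.node 3 8 (.leaf 45 0 [4,1,5,0,5,4,5,11,5,0]) (.leaf 46 0 [4,1,5,0,5,4,5,11,5,0]))
  (.node 13 32 (.leaf 13 0 [4,1,0,15,0,4,8,11,0,15]) (.leaf 14 0 [4,1,0,15,32,4,8,11,0,15]))) (.node 7 15 (.node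
  5 11 (.leaf 18 0 [4,1,0,15,16,4,8,11,0,15]) (.leaf 24 0 [4,1,0,15,16,4,8,15,0,15])) (.node 15 32 (.leaf 25 0
  [4,1,0,0,16,4,8,0,0,16]) (.leaf 55 0 [4,1,0,32,16,4,8,0,32,16])))))) (.node 11 15 (.node 5 8 (.node 6 11
  (.node 17 32 (.leaf 15 0 [2,1,0,6,0,2,11,0,6,0]) (.node 8 15 (.leaf 16 0 [2,1,32,6,0,2,11,32,6,0]) (.leaf 17 0
  [2,1,32,6,0,2,11,32,6,0]))) (.node 19 32 (.node 9 16 (.leaf 19 0 [2,1,32,6,0,2,0,32,6,0]) (.leaf 20 0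
  [2,1,16,6,0,2,0,16,6,0])) (.node 3 5 (.leaf 21 0 [2,1,16,6,0,2,32,16,6,0]) (.leaf 22 0
  [2,1,16,6,0,2,32,16,6,0])))) (.node 2 3 (.node 7 11 (.leaf 23 0 [2,1,8,6,0,2,0,8,6,0]) (.node 21 32 (.leaf 49
  0 [2,1,8,6,11,2,0,8,6,0]) (.leaf 50 0 [2,1,8,6,11,2,0,8,6,0]))) (.node 23 32 (.node 11 16 (.leaf 39 0
  [2,1,8,0,11,2,0,8,0,0]) (.leaf 31 0 [2,1,8,0,11,2,0,8,0,0])) (.node 8 11 (.leaf 34 0 [2,1,8,0,11,2,0,8,0,32])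
  (.leaf 38 0 [2,1,8,11,32,2,0,8,0,32]))))) (.node 27 32 (.node 4 5 (.node 3 4 (.leaf 57 0
  [2,1,8,11,15,2,15,8,15,32]) (.node 25 32 (.leaf 52 0 [2,1,4,11,15,2,15,4,15,0]) (.leaf 53 0
  [2,1,4,11,15,2,15,4,15,0]))) (.node 9 11 (.node 13 16 (.leaf 26 0 [2,1,4,11,0,2,0,4,32,0]) (.leaf 27 0
  [2,1,4,11,0,2,0,4,16,0])) (.node 5 6 (.leaf 28 0 [2,1,4,16,0,2,0,4,16,0]) (.leaf 29 0
  [2,1,4,16,0,2,6,4,16,0])))) (.node 10 11 (.node 7 8 (.node 13 15 (.leaf 30 0 [2,1,4,16,0,2,6,4,16,0]) (.leaf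
  40 0 [2,1,4,16,0,2,6,4,16,0])) (.node 29 32 (.leaf 41 0 [2,1,4,8,0,2,6,4,8,0]) (.leaf 42 0
  [2,1,4,8,0,2,6,4,8,0]))) (.node 15 16 (.node 14 15 (.leaf 43 0 [2,1,4,8,0,2,6,4,8,0]) (.leaf 48 0
  [2,1,4,8,0,2,6,4,8,0])) (.node 31 32 (.leaf 51 0 [2,1,4,8,0,2,6,4,8,0]) (.leaf 54 0
  [2,1,4,8,0,2,6,4,8,0]))))))

/-- the cycles for the digit `1` -/
def C1 : List (List ℕ) :=
  [[0], [], [], [], [], [], [], [], [], [], [], [], [], [], [], [], [], [], [], [], [], [], [], [], [], [], [],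
  [], [], [], [], [], [], [], [], [], [], [3], [], [6], [], [], [], [], [], [], [], [3], [], [], [6], [], [],
  [], [9], [], [], []]

theorem V1 : Valid 10 (10 ^ (1 - 1)) 1 32 C1 T1 := by
  unfold Valid
  constructor <;> decide +kernel

/-- the tree for the digit `2` -/
def T2 : Tr :=
  .node 1 2 (.node 1 4 (.node 4 33 (.node 2 33 (.node 1 24 (.node 1 35 (.leaf 4 0 [0,2,1,4,3,0,2,6,4,18]) (.node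
  1 33 (.leaf 0 0 [0,2,1,4,3,0,2,6,4,18]) (.leaf 1 0 [0,2,1,4,3,0,2,6,4,18]))) (.node 1 18 (.leaf 2 0
  [0,2,1,4,3,0,2,6,4,18]) (.node 2 35 (.leaf 3 0 [0,2,1,4,3,0,2,6,4,0]) (.leaf 5 0 [35,2,1,4,3,0,2,6,4,0]))))
  (.node 1 11 (.node 1 12 (.leaf 6 0 [33,2,1,4,3,0,2,6,4,0]) (.node 3 35 (.leaf 7 0 [24,2,1,4,3,24,2,6,4,0])
  (.leaf 8 0 [24,2,1,4,3,24,2,6,4,0]))) (.node 1 9 (.leaf 9 0 [24,2,1,4,3,24,2,6,4,0]) (.node 4 35 (.leaf 10 0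
  [18,2,1,4,3,18,2,6,4,9]) (.leaf 11 0 [18,2,1,4,3,18,2,6,4,9]))))) (.node 2 11 (.node 5 33 (.node 1 8 (.leaf 12
  0 [18,2,1,4,3,18,2,6,4,9]) (.node 1 7 (.leaf 13 0 [18,2,1,4,3,18,2,6,4,9]) (.leaf 15 0
  [18,2,1,4,3,18,2,6,4,9]))) (.node 1 6 (.leaf 37 0 [18,2,1,4,3,18,2,6,4,9]) (.node 6 35 (.leaf 46 0
  [12,2,1,4,3,12,2,24,4,9]) (.leaf 47 0 [12,2,1,4,3,12,2,24,4,9])))) (.node 7 33 (.node 1 5 (.leaf 81 0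
  [11,2,1,4,3,12,2,24,4,9]) (.node 5 24 (.leaf 82 0 [11,2,1,4,3,12,2,24,4,9]) (.leaf 83 0
  [11,2,1,4,3,12,2,35,4,9]))) (.node 8 35 (.node 2 9 (.leaf 84 0 [11,2,1,4,3,12,2,35,4,9]) (.leaf 85 0
  [9,2,1,4,3,12,2,35,4,35])) (.node 8 33 (.leaf 42 0 [9,2,1,4,3,12,2,0,4,0]) (.leaf 43 0
  [9,2,1,4,3,12,2,0,4,0])))))) (.node 3 8 (.node 10 33 (.node 5 18 (.node 9 35 (.leaf 16 0
  [9,2,1,7,3,0,2,0,33,24]) (.node 3 11 (.leaf 17 0 [9,2,1,7,3,0,2,0,33,24]) (.leaf 18 0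
  [9,2,1,7,3,0,2,0,0,11]))) (.node 2 7 (.leaf 19 0 [9,2,1,7,3,0,2,0,0,11]) (.node 7 24 (.leaf 20 0
  [7,2,1,0,3,0,2,0,0,11]) (.leaf 21 0 [7,2,1,0,3,0,2,0,0,11])))) (.node 12 35 (.node 11 35 (.leaf 22 0
  [7,2,1,0,3,0,2,0,0,11]) (.node 1 3 (.leaf 23 0 [7,2,1,0,3,0,2,0,0,11]) (.leaf 72 0 [6,2,1,0,12,6,2,3,0,11])))
  (.node 4 11 (.leaf 65 0 [6,2,1,0,12,6,2,3,35,11]) (.node 13 35 (.leaf 66 0 [6,2,1,0,12,6,2,3,11,12]) (.leaf 67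
  0 [6,2,1,0,12,6,2,3,11,12]))))) (.node 3 7 (.node 2 5 (.node 7 18 (.leaf 68 0 [6,2,1,0,12,6,2,3,11,12]) (.node
  13 33 (.leaf 71 0 [6,2,1,0,12,6,2,3,11,12]) (.leaf 86 0 [6,2,1,33,12,6,2,3,11,12]))) (.node 5 12 (.leaf 87 0
  [5,2,1,33,5,6,2,3,5,12]) (.node 14 33 (.leaf 49 0 [5,2,1,24,5,6,2,3,5,0]) (.leaf 50 0
  [5,2,1,24,5,6,2,3,5,0])))) (.node 16 35 (.node 4 9 (.leaf 52 0 [5,2,1,24,5,6,2,3,5,0]) (.node 5 11 (.leaf 54 0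
  [5,2,1,18,5,6,2,3,5,0]) (.leaf 88 0 [5,2,1,18,5,6,2,3,5,33]))) (.node 16 33 (.node 11 24 (.leaf 89 0
  [5,2,1,18,5,6,2,3,5,33]) (.leaf 90 0 [5,2,1,18,5,6,2,3,5,33])) (.node 17 35 (.leaf 56 0
  [5,2,1,18,5,6,2,3,5,0]) (.leaf 91 0 [5,2,1,18,5,6,2,3,5,35]))))))) (.node 3 4 (.node 11 18 (.node 5 9 (.node
  13 24 (.node 18 35 (.leaf 92 0 [4,35,1,12,5,4,5,3,5,35]) (.node 17 33 (.leaf 14 0 [4,0,1,12,5,4,5,3,5,0])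
  (.leaf 24 0 [4,0,1,12,5,4,5,3,5,0]))) (.node 19 35 (.leaf 25 0 [4,0,1,12,5,4,5,3,5,0]) (.node 6 11 (.leaf 26 0
  [4,0,1,12,5,4,5,3,5,0]) (.leaf 27 0 [4,0,1,12,5,4,5,3,5,0])))) (.node 7 12 (.node 4 7 (.leaf 28 0
  [4,0,1,9,5,4,5,3,5,18]) (.node 19 33 (.leaf 30 0 [4,0,1,9,5,4,5,3,5,18]) (.leaf 94 0
  [4,33,1,9,5,4,5,3,5,18]))) (.node 3 5 (.leaf 95 0 [4,33,1,9,5,4,5,3,5,18]) (.node 20 33 (.leaf 74 0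
  [4,33,1,9,7,4,11,3,0,18]) (.leaf 31 0 [4,0,1,9,7,4,11,3,0,18]))))) (.node 24 35 (.node 7 11 (.node 5 8 (.leaf
  32 0 [4,0,1,9,7,4,11,3,0,0]) (.node 22 35 (.leaf 33 0 [4,0,1,9,7,4,11,3,0,0]) (.leaf 34 0
  [4,0,1,9,7,4,11,3,35,0]))) (.node 23 35 (.leaf 35 0 [4,0,1,9,7,4,35,3,35,0]) (.node 2 3 (.leaf 36 0
  [4,0,1,9,7,4,0,3,0,0]) (.leaf 45 0 [3,0,1,6,7,4,0,12,6,24])))) (.node 5 7 (.node 23 33 (.leaf 38 0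
  [3,0,1,6,7,4,0,12,6,24]) (.node 17 24 (.leaf 39 0 [3,0,1,6,7,4,0,12,6,24]) (.leaf 40 0
  [3,0,1,6,7,4,0,12,6,0]))) (.node 8 11 (.node 13 18 (.leaf 41 0 [3,7,1,6,9,4,0,12,6,0]) (.leaf 44 0
  [3,7,1,6,9,4,0,12,6,0])) (.node 26 35 (.leaf 60 0 [3,7,1,6,9,4,33,12,6,0]) (.leaf 61 0
  [3,7,1,6,9,4,33,12,6,0])))))) (.node 7 8 (.node 4 5 (.node 7 9 (.node 25 33 (.leaf 29 0
  [3,7,1,6,9,0,24,0,6,0]) (.node 27 35 (.leaf 93 0 [3,7,1,6,9,0,24,0,6,33]) (.leaf 96 0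
  [3,7,1,6,9,35,24,35,6,33]))) (.node 26 33 (.leaf 97 0 [3,7,1,6,11,9,18,35,6,33]) (.node 19 24 (.leaf 98 0
  [3,7,1,6,11,9,18,35,6,35]) (.leaf 99 0 [3,7,1,6,11,9,18,35,6,35])))) (.node 5 6 (.node 9 11 (.leaf 62 0
  [3,7,1,6,11,9,18,0,6,0]) (.node 29 35 (.leaf 63 0 [3,7,1,6,0,9,18,0,6,0]) (.leaf 64 0
  [3,7,1,6,0,9,18,0,6,0]))) (.node 28 33 (.leaf 73 0 [3,7,1,11,0,9,12,0,24,0]) (.node 6 7 (.leaf 55 0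
  [3,7,1,11,0,9,12,0,24,0]) (.leaf 75 0 [3,12,1,11,0,9,12,0,7,0]))))) (.node 11 12 (.node 8 9 (.node 29 33
  (.leaf 76 0 [3,12,1,11,0,9,12,0,7,0]) (.node 31 35 (.leaf 77 0 [3,12,1,11,0,9,12,0,7,0]) (.leaf 78 0
  [3,12,1,11,0,9,12,0,7,0]))) (.node 10 11 (.leaf 79 0 [3,12,1,11,0,0,9,18,7,0]) (.node 32 35 (.leaf 69 0
  [3,12,1,0,33,0,9,18,7,0]) (.leaf 70 0 [3,12,1,0,33,0,9,18,7,0])))) (.node 17 18 (.node 31 33 (.leaf 48 0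
  [3,0,1,0,33,24,9,18,7,0]) (.node 33 35 (.leaf 51 0 [3,0,1,0,35,24,9,18,7,0]) (.leaf 53 0
  [3,0,1,0,0,24,9,18,7,0]))) (.node 32 33 (.node 23 24 (.leaf 57 0 [3,0,1,0,0,24,9,33,7,0]) (.leaf 58 0
  [3,0,1,0,0,0,9,33,7,0])) (.node 34 35 (.leaf 59 0 [3,0,1,0,0,0,9,0,7,0]) (.leaf 80 0
  [3,0,1,0,0,0,9,0,7,0])))))))

/-- the cycles for the digit `2` -/
def C2 : List (List ℕ) :=
  [[], [], [], [], [0], [], [], [], [], [], [], [], [], [], [], [], [], [], [], [], [], [], [], [3], [], [], [],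
  [], [], [], [], [], [], [], [], [], [6], [], [], [], [], [], [], [], [], [6], [], [], [], [], [], [], [], [],
  [], [], [], [], [], [], [], [], [], [], [], [], [], [], [], [], [], [], [3], [], [], [], [], [], [], [], [9],
  [], [], [], [], [], [], [], [], [], [], [], [], [], [], [], [], [], [], []]

theorem V2 : Valid 10 (10 ^ (1 - 1)) 2 35 C2 T2 := by
  unfold Valid
  constructor <;> decide +kernel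

/-- the tree for the digit `3` -/
def T3 : Tr :=
  .node 1 2 (.node 1 4 (.node 1 8 (.node 1 15 (.node 1 24 (.leaf 8 0 [0,3,0,1,0,0,0,0,0,0]) (.node 1 16 (.leaf 0
  0 [0,3,0,1,0,0,0,0,24,0]) (.leaf 1 0 [0,3,16,1,0,0,0,16,24,0]))) (.node 1 12 (.leaf 2 0
  [0,3,16,1,0,0,0,16,24,0]) (.node 1 11 (.leaf 3 0 [0,3,16,1,0,0,12,16,0,0]) (.leaf 4 0
  [0,3,11,1,0,0,12,16,0,0])))) (.node 2 11 (.node 2 15 (.leaf 9 0 [24,3,11,1,8,24,12,0,0,8]) (.node 1 6 (.leaf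
  15 1 [24,3,11,1,8,24,12,0,0,8]) (.leaf 5 0 [0,3,6,1,8,0,0,6,0,8]))) (.node 1 5 (.node 3 16 (.leaf 6 0
  [0,3,6,1,8,0,0,6,0,8]) (.leaf 16 0 [16,3,6,1,8,16,0,6,0,8])) (.node 5 24 (.leaf 17 0
  [15,3,6,1,8,16,15,6,15,8]) (.leaf 45 0 [15,3,6,1,8,16,15,6,15,8]))))) (.node 3 8 (.node 7 24 (.node 4 15
  (.leaf 41 0 [12,3,6,1,15,12,15,6,4,0]) (.node 3 11 (.leaf 11 0 [12,3,6,1,0,12,0,6,4,0]) (.leaf 15 3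
  [11,3,6,1,0,12,0,6,4,0]))) (.node 1 3 (.node 5 16 (.leaf 28 0 [11,3,6,1,24,12,0,6,4,24]) (.leaf 29 0
  [11,3,6,1,24,12,0,6,4,24])) (.node 4 11 (.leaf 10 0 [11,0,0,1,3,0,0,0,4,0]) (.leaf 7 0
  [0,0,0,1,3,0,0,0,4,11])))) (.node 7 16 (.node 2 5 (.leaf 18 0 [8,24,0,1,3,8,24,0,4,11]) (.node 5 12 (.leaf 19
  0 [8,24,0,1,3,8,24,0,4,11]) (.leaf 15 2 [8,0,0,1,3,8,0,0,4,11]))) (.node 11 24 (.node 5 11 (.leaf 20 0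
  [8,16,0,1,3,8,16,0,4,11]) (.leaf 21 0 [8,16,0,1,3,8,16,0,4,12])) (.node 7 15 (.leaf 22 0
  [8,16,0,1,3,8,16,0,4,12]) (.leaf 44 0 [8,16,0,1,3,8,16,0,4,12])))))) (.node 11 15 (.node 3 5 (.node 6 11
  (.node 8 15 (.leaf 26 0 [6,2,0,1,3,6,2,0,11,0]) (.node 13 24 (.leaf 38 0 [6,2,0,1,3,6,2,15,11,15]) (.leaf 39 0
  [6,2,0,1,3,6,2,15,11,15]))) (.node 9 16 (.leaf 12 0 [6,2,0,1,3,6,2,11,0,15]) (.node 7 12 (.leaf 15 5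
  [6,2,0,1,3,6,2,11,0,15]) (.leaf 40 0 [6,2,0,1,3,6,2,11,12,15])))) (.node 2 3 (.node 5 8 (.leaf 46 0
  [5,2,5,1,3,6,2,11,5,16]) (.node 7 11 (.leaf 30 0 [5,2,5,1,3,6,2,11,5,0]) (.leaf 31 0 [5,2,5,1,3,6,2,24,5,0])))
  (.node 17 24 (.node 11 16 (.leaf 13 0 [5,2,5,1,5,0,2,3,5,0]) (.leaf 14 0 [5,2,5,1,5,0,2,3,5,0])) (.node 8 11
  (.leaf 15 0 [5,2,5,1,5,0,2,3,5,24]) (.leaf 47 0 [5,2,5,1,5,11,2,3,5,24]))))) (.node 13 15 (.node 4 5 (.node 3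
  4 (.leaf 48 0 [5,2,5,1,5,11,2,3,5,24]) (.node 19 24 (.leaf 32 0 [4,2,5,1,5,4,2,3,5,0]) (.leaf 33 0
  [4,2,5,1,5,4,2,3,5,0]))) (.node 9 11 (.node 13 16 (.leaf 23 0 [4,2,12,1,0,4,2,3,0,0]) (.leaf 24 0
  [4,2,12,1,0,4,2,3,0,0])) (.node 5 6 (.leaf 34 0 [4,2,12,1,11,4,2,3,0,0]) (.leaf 15 4
  [4,2,0,1,11,4,2,3,6,0])))) (.node 11 12 (.node 7 8 (.leaf 35 0 [4,2,15,1,11,4,2,3,6,0]) (.node 10 11 (.leaf 36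
  0 [4,2,8,1,11,4,2,3,6,0]) (.leaf 37 0 [4,2,8,1,15,4,2,3,6,0]))) (.node 15 16 (.node 14 15 (.leaf 42 0
  [4,2,8,1,15,4,2,3,6,0]) (.leaf 25 0 [4,2,8,1,0,4,2,3,6,0])) (.node 23 24 (.leaf 27 0 [4,2,8,1,0,4,2,3,6,0])
  (.leaf 43 0 [4,2,8,1,0,4,2,3,6,0]))))))

/-- the cycles for the digit `3` -/
def C3 : List (List ℕ) :=
  [[], [], [], [], [], [], [], [], [0], [], [], [], [], [], [], [7, 1, 4, 2, 8, 5], [], [], [], [], [], [], [],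
  [], [], [], [], [], [], [], [], [], [], [], [], [], [], [], [], [], [], [], [], [9], [], [], [], [], []]

theorem V3 : Valid 10 (10 ^ (1 - 1)) 3 24 C3 T3 := by
  unfold Valid
  constructor <;> decide +kernel

/-- the tree for the digit `4` -/
def T4 : Tr :=
  .node 1 2 (.node 1 4 (.node 1 7 (.node 1 13 (.node 1 22 (.node 1 32 (.leaf 40 0 [0,4,2,8,1,0,4,2,3,6]) (.node
  1 25 (.leaf 0 0 [0,4,2,8,1,0,4,2,3,6]) (.leaf 1 0 [0,4,2,8,1,0,4,2,3,6]))) (.node 1 16 (.node 1 19 (.leaf 5 0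
  [0,4,2,8,1,0,4,2,3,6]) (.leaf 6 0 [0,4,2,8,1,0,4,2,3,6])) (.node 1 14 (.leaf 7 0 [0,4,2,8,1,0,4,2,3,6]) (.leaf
  8 0 [0,4,2,8,1,0,4,2,3,6])))) (.node 2 19 (.node 1 11 (.node 2 25 (.leaf 9 0 [0,4,2,8,1,0,4,2,3,6]) (.leaf 25
  0 [0,4,2,8,1,0,4,2,3,6])) (.node 3 32 (.leaf 26 0 [0,4,2,8,1,0,4,2,3,6]) (.leaf 35 0 [0,4,2,8,1,0,4,2,3,6])))
  (.node 1 8 (.node 3 25 (.leaf 36 0 [0,4,2,8,1,0,4,2,3,6]) (.leaf 37 0 [0,4,2,8,1,0,4,2,3,6])) (.node 3 22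
  (.leaf 58 0 [32,4,2,11,1,32,4,2,3,6]) (.leaf 59 0 [32,4,2,11,1,32,4,2,3,6]))))) (.node 3 16 (.node 3 19 (.node
  2 13 (.leaf 60 0 [32,4,2,11,1,32,4,2,3,6]) (.node 5 32 (.leaf 61 0 [32,4,2,11,1,32,4,2,3,6]) (.leaf 38 0
  [0,4,2,11,1,0,4,2,3,6]))) (.node 1 6 (.node 4 25 (.leaf 39 0 [0,4,2,11,1,0,4,2,3,6]) (.leaf 41 0
  [25,4,2,11,1,0,4,2,3,6])) (.node 2 11 (.leaf 46 0 [25,4,2,11,1,0,4,2,3,7]) (.leaf 62 0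
  [22,4,2,14,1,22,4,2,3,7])))) (.node 7 32 (.node 4 19 (.node 1 5 (.leaf 93 0 [22,4,2,14,1,22,4,2,3,7]) (.leaf
  94 0 [22,4,2,14,1,22,4,2,3,7])) (.node 3 14 (.leaf 95 0 [19,4,2,14,1,22,4,2,3,7]) (.leaf 96 0
  [19,4,2,0,1,22,4,2,3,7]))) (.node 3 13 (.node 5 22 (.leaf 97 0 [19,4,2,0,1,22,4,2,3,7]) (.leaf 48 0
  [19,4,2,0,1,0,4,2,3,7])) (.node 6 25 (.leaf 49 0 [19,4,2,0,1,0,4,2,3,7]) (.leaf 50 0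
  [19,4,2,0,1,0,4,2,3,7])))))) (.node 4 11 (.node 5 16 (.node 7 25 (.node 5 19 (.leaf 57 0
  [16,0,2,32,1,16,0,2,3,7]) (.node 3 11 (.leaf 72 0 [16,19,2,32,1,16,0,2,3,7]) (.leaf 75 0
  [16,11,2,32,1,16,0,2,3,7]))) (.node 2 7 (.node 9 32 (.leaf 76 0 [16,11,2,32,1,16,0,2,3,7]) (.leaf 79 0
  [16,11,2,0,1,16,0,2,3,7])) (.node 4 13 (.leaf 98 0 [14,11,2,0,1,14,7,2,3,8]) (.leaf 99 0
  [13,11,2,0,1,14,7,2,3,8])))) (.node 1 3 (.node 7 22 (.node 6 19 (.leaf 100 0 [13,11,2,0,1,14,7,2,3,8]) (.leaf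
  101 0 [13,11,2,0,1,14,7,2,3,8])) (.node 8 25 (.leaf 102 0 [13,11,2,0,1,14,7,2,3,8]) (.leaf 103 0
  [13,11,2,0,1,14,7,2,3,8]))) (.node 5 14 (.node 11 32 (.leaf 12 0 [13,3,2,0,1,14,7,2,0,8]) (.leaf 10 0
  [13,3,2,0,1,14,7,2,0,8])) (.node 9 25 (.leaf 11 0 [13,3,2,0,1,0,7,2,0,8]) (.leaf 13 0
  [13,3,2,25,1,25,7,2,0,8]))))) (.node 3 7 (.node 2 5 (.node 3 8 (.node 7 19 (.leaf 104 0
  [11,3,2,22,1,25,7,2,22,8]) (.leaf 105 0 [11,3,2,19,1,25,7,2,22,8])) (.node 5 13 (.leaf 106 0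
  [11,3,2,16,1,25,7,2,16,25]) (.leaf 107 0 [11,3,2,13,1,25,7,2,16,25]))) (.node 9 22 (.node 13 32 (.leaf 27 0
  [11,3,2,13,1,0,7,2,16,0]) (.leaf 28 0 [11,3,2,13,1,0,7,2,16,0])) (.node 8 19 (.leaf 29 0
  [11,3,2,13,1,0,7,2,16,0]) (.leaf 30 0 [11,3,2,13,1,0,7,2,16,0])))) (.node 6 13 (.node 11 25 (.node 7 16 (.leaf
  31 0 [11,3,2,7,1,0,0,2,16,0]) (.leaf 17 0 [11,3,2,7,1,32,0,2,0,0])) (.node 5 11 (.leaf 18 0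
  [11,3,2,7,1,32,0,2,0,0]) (.leaf 19 0 [32,3,2,7,1,32,0,2,0,11]))) (.node 9 19 (.node 15 32 (.leaf 21 0
  [32,3,2,7,1,32,13,2,0,11]) (.leaf 2 0 [0,3,2,7,1,0,13,2,0,11])) (.node 12 25 (.leaf 3 0
  [0,3,2,7,1,19,13,2,0,11]) (.leaf 4 0 [0,3,2,7,1,19,13,2,0,11]))))))) (.node 14 19 (.node 12 19 (.node 9 16
  (.node 17 32 (.node 13 25 (.leaf 47 0 [8,3,0,4,1,8,13,0,4,11]) (.node 10 19 (.leaf 51 0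
  [8,3,0,4,1,8,13,0,4,11]) (.leaf 52 0 [8,3,0,4,1,8,13,0,4,11]))) (.node 6 11 (.node 7 13 (.leaf 53 0
  [8,3,0,4,1,8,13,0,4,11]) (.leaf 54 0 [8,3,0,4,1,8,16,0,4,11])) (.node 14 25 (.leaf 55 0
  [8,3,0,4,1,8,16,0,4,13]) (.leaf 67 0 [8,3,25,4,1,8,16,0,4,13])))) (.node 19 32 (.node 11 19 (.node 4 7 (.leaf
  82 0 [8,3,25,4,1,8,19,0,4,13]) (.leaf 83 0 [7,3,25,4,1,8,19,0,4,13])) (.node 13 22 (.leaf 108 0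
  [7,3,25,4,1,8,22,19,4,13]) (.leaf 109 0 [7,3,25,4,1,8,25,19,4,13]))) (.node 8 13 (.node 3 5 (.leaf 110 0
  [7,3,25,4,1,8,25,19,4,13]) (.leaf 56 0 [7,3,0,4,1,8,0,19,4,13])) (.node 5 8 (.leaf 111 0
  [7,3,13,4,1,8,0,19,4,14]) (.leaf 80 0 [7,3,13,4,1,0,0,19,4,14]))))) (.node 15 22 (.node 9 14 (.node 7 11
  (.leaf 81 0 [7,3,13,4,1,0,0,32,4,14]) (.node 16 25 (.leaf 112 0 [7,3,13,4,1,22,0,11,4,14]) (.leaf 113 0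
  [7,3,13,4,1,22,0,11,4,14]))) (.node 2 3 (.node 21 32 (.leaf 114 0 [7,3,13,4,1,22,0,11,4,16]) (.leaf 115 0
  [7,3,13,4,1,22,0,11,4,16])) (.node 17 25 (.leaf 45 0 [6,0,13,4,1,6,0,11,4,16]) (.leaf 42 0
  [6,0,13,4,1,6,0,11,4,16])))) (.node 5 7 (.node 11 16 (.node 13 19 (.leaf 43 0 [6,0,13,4,1,6,0,11,4,16]) (.leaf
  44 0 [6,0,13,4,1,6,0,11,4,16])) (.node 9 13 (.leaf 116 0 [6,32,13,4,1,6,32,11,4,19]) (.leaf 68 0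
  [6,32,0,4,1,6,32,11,4,19]))) (.node 18 25 (.node 23 32 (.leaf 69 0 [6,14,0,4,1,6,14,7,4,19]) (.leaf 70 0
  [6,14,0,4,1,6,14,7,4,19])) (.node 8 11 (.leaf 71 0 [6,14,0,4,1,6,14,7,4,19]) (.leaf 73 0
  [6,14,0,4,1,6,11,7,4,19])))))) (.node 11 13 (.node 15 19 (.node 10 13 (.node 3 4 (.leaf 74 0
  [6,14,0,4,1,6,11,7,4,22]) (.node 19 25 (.leaf 84 0 [6,8,16,0,1,6,8,7,0,22]) (.leaf 85 0
  [6,8,16,25,1,6,8,7,0,22]))) (.node 25 32 (.node 17 22 (.leaf 117 0 [6,8,16,25,1,6,8,7,13,22]) (.leaf 118 0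
  [6,8,16,25,1,6,8,7,13,25])) (.node 11 14 (.leaf 119 0 [6,8,16,25,1,6,8,7,13,25]) (.leaf 120 0
  [6,8,16,25,1,6,8,7,13,25])))) (.node 5 6 (.node 13 16 (.node 4 5 (.leaf 121 0 [6,8,16,25,1,6,8,7,13,25])
  (.leaf 66 0 [6,8,16,0,1,6,8,7,13,0])) (.node 9 11 (.leaf 77 0 [6,8,0,0,1,6,8,7,13,32]) (.leaf 78 0
  [6,8,0,22,1,6,8,7,13,32]))) (.node 16 19 (.node 21 25 (.leaf 14 0 [0,8,0,22,1,11,8,7,13,32]) (.leaf 15 0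
  [0,8,0,22,1,11,8,7,13,32])) (.node 27 32 (.leaf 16 0 [0,8,19,22,1,11,8,7,13,32]) (.leaf 20 0
  [0,8,19,22,1,11,8,7,13,0]))))) (.node 23 25 (.node 22 25 (.node 19 22 (.node 6 7 (.leaf 22 0
  [0,8,19,22,1,11,8,7,22,0]) (.leaf 23 0 [0,8,19,14,1,11,8,0,14,0])) (.node 7 8 (.leaf 24 0
  [0,8,19,14,1,11,8,0,14,0]) (.leaf 86 0 [16,13,19,14,1,11,0,0,14,0]))) (.node 29 32 (.node 17 19 (.leaf 87 0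
  [16,13,19,14,1,11,0,0,14,0]) (.leaf 88 0 [16,13,0,14,1,11,0,0,14,0])) (.node 10 11 (.leaf 89 0
  [16,13,0,14,1,11,0,0,14,0]) (.leaf 90 0 [16,13,22,14,1,16,0,22,14,0])))) (.node 18 19 (.node 13 14 (.node 12
  13 (.leaf 91 0 [16,13,22,14,1,16,0,22,14,0]) (.leaf 63 0 [16,0,22,14,1,16,0,22,14,0])) (.node 15 16 (.leaf 64
  0 [16,0,22,19,1,16,0,22,0,0]) (.leaf 32 0 [0,0,22,19,1,0,0,22,0,0]))) (.node 24 25 (.node 21 22 (.leaf 33 0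
  [0,0,22,0,1,0,0,22,0,0]) (.leaf 34 0 [0,0,32,0,1,0,0,32,0,0])) (.node 31 32 (.leaf 65 0
  [25,0,25,0,1,0,25,32,25,0]) (.leaf 92 0 [25,0,25,0,1,0,25,0,25,0])))))))

/-- the cycles for the digit `4` -/
def C4 : List (List ℕ) :=
  [[], [], [], [], [], [], [], [], [], [], [], [], [3], [], [], [], [], [], [], [], [], [], [], [], [], [], [],
  [], [], [], [], [], [], [], [], [], [], [], [], [], [0], [], [], [], [], [6], [], [], [], [], [], [], [], [],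
  [], [], [], [], [], [], [], [], [], [], [], [], [], [], [], [], [], [], [], [], [], [], [], [], [], [], [],
  [], [], [], [], [], [], [], [], [], [], [], [9], [], [], [], [], [], [], [], [], [], [], [3], [], [], [], [],
  [], [], [], [], [], [], [], [6], [], [], [], [], [], []]

theorem V4 : Valid 10 (10 ^ (1 - 1)) 4 32 C4 T4 := by
  unfold Valid
  constructor <;> decide +kernel

/-- the tree for the digit `5` -/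
def T5 : Tr :=
  .node 1 2 (.node 1 4 (.node 1 7 (.node 1 13 (.node 1 22 (.node 1 32 (.leaf 87 0 [0,25,0,25,0,1,0,25,0,25])
  (.node 1 25 (.leaf 0 0 [0,25,32,25,0,1,0,25,0,25]) (.leaf 1 0 [0,0,32,0,0,1,0,32,0,0]))) (.node 1 16 (.node 1
  19 (.leaf 2 0 [0,0,22,0,0,1,0,22,0,0]) (.leaf 10 0 [0,0,22,0,0,1,19,22,0,0])) (.node 1 14 (.leaf 11 0
  [0,0,22,0,16,1,19,22,0,16]) (.leaf 12 0 [0,14,22,0,16,1,14,22,0,16])))) (.node 2 19 (.node 1 11 (.node 2 25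
  (.leaf 13 0 [0,14,22,0,16,1,14,22,13,16]) (.leaf 14 0 [0,14,22,0,16,1,14,22,13,16])) (.node 3 32 (.leaf 15 0
  [0,14,0,0,11,1,14,0,13,16]) (.leaf 16 0 [0,14,0,0,11,1,14,0,13,16]))) (.node 1 8 (.node 3 25 (.leaf 17 0
  [0,14,0,0,11,1,14,19,13,16]) (.leaf 85 0 [0,14,0,0,11,1,14,19,13,16])) (.node 3 22 (.leaf 61 0
  [0,14,0,8,11,1,14,19,8,0]) (.leaf 62 0 [0,14,0,8,11,1,14,19,8,0]))))) (.node 3 16 (.node 3 19 (.node 2 13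
  (.leaf 66 0 [0,22,7,8,11,1,22,19,8,0]) (.node 5 32 (.leaf 68 0 [0,13,7,8,11,1,22,19,8,0]) (.leaf 69 0
  [32,13,7,8,11,1,22,19,8,0]))) (.node 1 6 (.node 4 25 (.leaf 21 0 [32,13,7,8,11,1,22,0,8,0]) (.leaf 26 0
  [32,13,7,8,11,1,22,0,8,0])) (.node 2 11 (.leaf 27 0 [32,13,7,8,6,1,22,0,8,6]) (.leaf 28 0
  [32,13,7,8,6,1,0,0,8,6])))) (.node 7 32 (.node 4 19 (.node 1 5 (.leaf 86 0 [0,13,7,8,6,1,0,16,8,6]) (.leaf 88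
  0 [25,13,7,8,6,1,25,16,8,6])) (.node 3 14 (.leaf 89 0 [25,13,7,8,6,1,25,16,8,6]) (.leaf 90 0
  [25,13,7,8,6,1,25,16,8,6]))) (.node 3 13 (.node 5 22 (.leaf 91 0 [25,13,7,8,6,1,25,16,8,6]) (.leaf 92 0
  [22,13,7,8,6,1,25,16,8,6])) (.node 6 25 (.leaf 18 0 [22,0,7,8,6,1,25,16,8,6]) (.leaf 84 0
  [22,0,7,8,6,1,0,16,8,6])))))) (.node 4 11 (.node 5 16 (.node 7 25 (.node 5 19 (.leaf 31 0
  [22,4,7,11,6,1,4,0,14,6]) (.node 3 11 (.leaf 32 0 [19,4,7,11,6,1,4,0,14,6]) (.leaf 34 0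
  [19,4,7,14,6,1,4,0,14,6]))) (.node 2 7 (.node 9 32 (.leaf 35 0 [19,4,7,14,6,1,4,0,14,6]) (.leaf 36 0
  [19,4,7,14,6,1,4,0,14,6])) (.node 4 13 (.leaf 37 0 [19,4,11,32,6,1,4,0,32,6]) (.leaf 93 0
  [19,4,11,32,6,1,4,13,32,6])))) (.node 1 3 (.node 7 22 (.node 6 19 (.leaf 49 0 [16,4,11,0,6,1,4,13,0,6]) (.leaf
  50 0 [16,4,11,0,6,1,4,13,0,6])) (.node 8 25 (.leaf 51 0 [16,4,11,0,6,1,4,13,0,6]) (.leaf 52 0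
  [16,4,11,0,6,1,4,13,0,6]))) (.node 5 14 (.node 11 32 (.leaf 98 0 [16,4,11,0,22,1,4,13,3,7]) (.leaf 94 0
  [16,4,11,0,22,1,4,13,3,7])) (.node 9 25 (.leaf 95 0 [14,4,11,0,22,1,4,13,3,7]) (.leaf 96 0
  [14,4,11,0,22,1,4,13,3,7]))))) (.node 3 7 (.node 2 5 (.node 3 8 (.node 7 19 (.leaf 20 0
  [14,4,32,0,0,1,4,13,3,7]) (.leaf 81 0 [14,4,19,0,0,1,4,13,3,7])) (.node 5 13 (.leaf 97 0
  [14,4,19,0,8,1,4,13,3,7]) (.leaf 39 0 [13,4,19,0,8,1,4,0,3,7]))) (.node 9 22 (.node 13 32 (.leaf 99 0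
  [13,4,19,25,8,1,4,25,3,7]) (.leaf 100 0 [13,4,19,25,8,1,4,25,3,7])) (.node 8 19 (.leaf 101 0
  [13,4,19,22,8,1,4,25,3,7]) (.leaf 19 0 [13,4,0,19,8,1,4,25,3,7])))) (.node 6 13 (.node 11 25 (.node 7 16
  (.leaf 82 0 [13,4,0,19,8,1,4,25,3,8]) (.leaf 83 0 [13,4,0,16,8,1,4,25,3,8])) (.node 5 11 (.leaf 41 0
  [13,4,0,16,8,1,4,0,3,8]) (.leaf 42 0 [11,4,0,16,8,1,4,0,3,8]))) (.node 9 19 (.node 15 32 (.leaf 43 0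
  [11,4,0,13,8,1,4,0,3,8]) (.leaf 44 0 [11,4,0,13,8,1,4,0,3,8])) (.node 12 25 (.leaf 48 0
  [11,4,0,13,8,1,4,0,3,8]) (.leaf 79 0 [11,4,0,13,8,1,4,0,3,8]))))))) (.node 14 19 (.node 12 19 (.node 9 16
  (.node 17 32 (.node 13 25 (.leaf 63 0 [11,0,2,13,19,1,7,2,3,0]) (.node 10 19 (.leaf 64 0
  [11,0,2,13,19,1,7,2,3,0]) (.leaf 40 0 [11,0,2,13,0,1,7,2,3,0]))) (.node 6 11 (.node 7 13 (.leaf 65 0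
  [11,0,2,13,32,1,7,2,3,32]) (.leaf 67 0 [11,0,2,0,32,1,7,2,3,32])) (.node 14 25 (.leaf 3 0
  [0,0,2,0,32,1,7,2,3,11]) (.leaf 4 0 [0,0,2,0,32,1,7,2,3,11])))) (.node 19 32 (.node 11 19 (.node 4 7 (.leaf 5
  0 [0,16,2,0,0,1,7,2,3,11]) (.leaf 6 0 [0,16,2,7,0,1,13,2,3,11])) (.node 13 22 (.leaf 7 0
  [0,16,2,7,0,1,13,2,3,11]) (.leaf 8 0 [0,16,2,7,0,1,13,2,3,11]))) (.node 8 13 (.node 3 5 (.leaf 9 0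
  [0,16,2,7,0,1,13,2,3,11]) (.leaf 102 0 [25,16,2,7,25,1,13,2,3,11])) (.node 5 8 (.leaf 103 0
  [25,16,2,7,25,1,16,2,3,11]) (.leaf 104 0 [8,22,2,7,25,1,19,2,3,11]))))) (.node 15 22 (.node 9 14 (.node 7 11
  (.leaf 105 0 [8,22,2,7,25,1,22,2,3,11]) (.node 16 25 (.leaf 22 0 [8,0,2,7,25,1,25,2,3,13]) (.leaf 23 0
  [8,0,2,7,0,1,0,2,3,13]))) (.node 2 3 (.node 21 32 (.leaf 24 0 [8,0,2,7,14,1,0,2,3,13]) (.leaf 25 0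
  [8,0,2,7,14,1,0,2,3,13])) (.node 17 25 (.leaf 113 0 [8,3,2,7,14,1,0,2,11,13]) (.leaf 106 0
  [8,3,2,7,14,1,0,2,11,13])))) (.node 5 7 (.node 11 16 (.node 13 19 (.leaf 107 0 [8,3,2,7,14,1,0,2,11,13])
  (.leaf 108 0 [8,3,2,7,14,1,0,2,11,13])) (.node 9 13 (.leaf 109 0 [8,3,2,7,14,1,0,2,11,13]) (.leaf 110 0
  [8,3,2,7,14,1,0,2,11,14]))) (.node 18 25 (.node 23 32 (.leaf 29 0 [7,3,2,0,16,1,0,2,11,16]) (.leaf 30 0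
  [7,3,2,0,16,1,32,2,11,16])) (.node 8 11 (.leaf 33 0 [7,3,2,0,16,1,32,2,11,16]) (.leaf 38 0
  [7,3,2,0,16,1,32,2,19,16])))))) (.node 11 13 (.node 15 19 (.node 10 13 (.node 3 4 (.leaf 80 0
  [7,3,2,0,16,1,32,2,0,16]) (.node 19 25 (.leaf 45 0 [7,3,2,4,0,1,0,2,4,19]) (.leaf 46 0
  [7,3,2,4,0,1,0,2,4,19]))) (.node 25 32 (.node 17 22 (.leaf 47 0 [7,3,2,4,0,1,0,2,4,19]) (.leaf 111 0
  [7,3,2,4,22,1,0,2,4,19])) (.node 11 14 (.leaf 112 0 [7,3,2,4,22,1,0,2,4,19]) (.leaf 114 0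
  [7,3,2,4,22,1,14,2,4,19])))) (.node 5 6 (.node 13 16 (.node 4 5 (.leaf 115 0 [7,3,2,4,22,1,14,2,4,22]) (.leaf
  116 0 [7,3,2,4,22,1,14,2,4,22])) (.node 9 11 (.leaf 117 0 [7,3,2,4,22,1,14,2,4,22]) (.leaf 53 0
  [7,3,2,4,0,1,11,2,4,25]))) (.node 16 19 (.node 21 25 (.leaf 54 0 [6,3,2,4,0,1,11,2,4,25]) (.leaf 55 0
  [6,3,2,4,0,1,11,2,4,0])) (.node 27 32 (.leaf 56 0 [6,3,2,4,0,1,11,2,4,0]) (.leaf 118 0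
  [6,3,2,4,32,1,11,2,4,32]))))) (.node 23 25 (.node 22 25 (.node 19 22 (.node 6 7 (.leaf 119 0
  [6,3,2,4,32,1,11,2,4,32]) (.leaf 120 0 [6,3,2,4,32,1,11,2,4,32])) (.node 7 8 (.leaf 121 0
  [6,3,2,4,32,1,11,2,4,32]) (.leaf 57 0 [6,3,2,4,0,1,8,2,4,0]))) (.node 29 32 (.node 17 19 (.leaf 58 0
  [6,3,2,4,0,1,8,2,4,0]) (.leaf 59 0 [6,3,2,4,0,1,8,2,4,0])) (.node 10 11 (.leaf 60 0 [6,3,2,4,0,1,8,2,4,0])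
  (.leaf 70 0 [6,3,2,4,0,1,8,2,4,0])))) (.node 18 19 (.node 13 14 (.node 12 13 (.leaf 71 0
  [6,3,2,4,0,1,8,2,4,0]) (.leaf 72 0 [6,3,2,4,0,1,8,2,4,0])) (.node 15 16 (.leaf 73 0 [6,3,2,4,0,1,8,2,4,0])
  (.leaf 74 0 [6,3,2,4,0,1,8,2,4,0]))) (.node 24 25 (.node 21 22 (.leaf 75 0 [6,3,2,4,0,1,8,2,4,0]) (.leaf 76 0
  [6,3,2,4,0,1,8,2,4,0])) (.node 31 32 (.leaf 77 0 [6,3,2,4,0,1,8,2,4,0]) (.leaf 78 0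
  [6,3,2,4,0,1,8,2,4,0])))))))

/-- the cycles for the digit `5` -/
def C5 : List (List ℕ) :=
  [[], [], [], [], [], [], [], [], [], [], [], [], [], [], [], [], [], [], [], [], [], [], [], [], [], [6], [],
  [], [], [], [], [], [], [], [], [], [], [], [], [], [], [], [], [], [], [], [], [], [], [], [], [], [3], [],
  [], [], [], [], [], [], [], [], [], [], [], [], [], [], [], [], [], [], [], [], [], [], [], [], [9], [], [],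
  [], [], [], [], [], [], [0], [], [], [], [], [], [], [], [], [], [], [3], [], [], [], [], [], [], [], [], [],
  [], [], [], [], [], [6], [], [], [], [], [], [], [], []]

theorem V5 : Valid 10 (10 ^ (1 - 1)) 5 32 C5 T5 := by
  unfold Valid
  constructor <;> decide +kernel

/-- the tree for the digit `6` -/
def T6 : Tr :=
  .node 1 2 (.node 1 4 (.node 1 8 (.node 1 15 (.node 1 24 (.leaf 37 0 [0,6,3,2,4,0,1,8,2,4]) (.node 1 16 (.leaf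
  10 0 [0,6,3,2,4,0,1,8,2,4]) (.leaf 12 0 [0,6,3,2,4,0,1,8,2,4]))) (.node 1 12 (.leaf 23 0
  [0,6,3,2,4,15,1,8,2,4]) (.node 1 11 (.leaf 24 0 [0,6,3,2,4,15,1,8,2,4]) (.leaf 29 0 [0,6,3,2,4,11,1,8,2,4]))))
  (.node 2 11 (.node 2 15 (.leaf 30 0 [0,6,3,2,4,11,1,15,2,4]) (.node 1 6 (.leaf 18 2 [0,6,3,2,4,11,1,0,2,4])
  (.leaf 26 0 [0,0,3,2,4,11,1,12,2,4]))) (.node 1 5 (.node 3 16 (.leaf 27 0 [0,0,3,2,4,0,1,12,2,4]) (.leaf 28 0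
  [0,0,3,2,4,0,1,12,2,4])) (.node 5 24 (.leaf 31 0 [0,5,3,2,4,5,1,5,2,4]) (.leaf 32 0 [0,5,3,2,4,5,1,5,2,4])))))
  (.node 3 8 (.node 7 24 (.node 4 15 (.leaf 44 0 [24,5,3,2,11,5,1,5,2,5]) (.node 3 11 (.leaf 45 0
  [24,5,3,2,11,5,1,5,2,5]) (.leaf 18 4 [24,5,3,2,0,5,1,5,2,5]))) (.node 1 3 (.node 5 16 (.leaf 15 0
  [0,5,3,2,0,5,1,5,2,5]) (.leaf 16 0 [0,5,3,2,0,5,1,5,2,5])) (.node 4 11 (.leaf 33 0 [0,5,24,2,6,3,1,5,2,5])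
  (.leaf 36 0 [0,5,11,2,6,3,1,5,2,5])))) (.node 7 16 (.node 2 5 (.leaf 46 0 [16,5,11,2,6,3,1,5,2,5]) (.node 5 12
  (.leaf 19 0 [15,12,11,2,6,3,1,0,2,6]) (.leaf 18 3 [15,0,11,2,6,3,1,0,2,6]))) (.node 11 24 (.node 5 11 (.leaf
  17 0 [15,0,11,2,6,3,1,0,2,6]) (.leaf 20 0 [15,11,15,2,6,3,1,0,2,6])) (.node 7 15 (.leaf 21 0
  [15,11,15,2,6,3,1,0,2,6]) (.leaf 9 0 [0,11,0,2,6,3,1,0,2,6])))))) (.node 11 15 (.node 3 5 (.node 6 11 (.node 8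
  15 (.leaf 38 0 [12,4,0,16,8,3,1,0,16,8]) (.node 13 24 (.leaf 39 0 [12,4,0,16,8,3,1,0,16,8]) (.leaf 40 0
  [12,4,0,16,8,3,1,0,16,8]))) (.node 9 16 (.leaf 41 0 [11,4,0,16,8,3,1,0,16,8]) (.node 7 12 (.leaf 18 0
  [11,4,0,0,8,3,1,0,0,8]) (.leaf 42 0 [11,4,0,24,8,3,1,0,24,8])))) (.node 2 3 (.node 5 8 (.leaf 43 0
  [11,4,0,24,8,3,1,0,24,8]) (.node 7 11 (.leaf 7 0 [11,4,0,0,0,3,1,0,0,0]) (.leaf 11 0 [0,4,0,0,0,3,1,0,0,11])))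
  (.node 17 24 (.node 11 16 (.leaf 34 0 [24,4,6,0,12,24,1,6,3,11]) (.leaf 35 0 [24,4,6,0,12,24,1,6,3,11]))
  (.node 8 11 (.leaf 18 1 [0,4,6,0,12,0,1,6,3,11]) (.leaf 13 0 [0,4,6,0,12,0,1,6,3,12]))))) (.node 13 15 (.node
  4 5 (.node 3 4 (.leaf 22 0 [0,4,6,15,12,15,1,6,3,12]) (.node 19 24 (.leaf 47 0 [8,15,6,15,16,8,1,6,3,15])
  (.leaf 48 0 [8,15,6,15,16,8,1,6,3,15]))) (.node 9 11 (.node 13 16 (.leaf 25 0 [8,0,6,0,16,8,1,6,3,16]) (.leaf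
  0 0 [8,0,6,0,0,8,1,6,3,0])) (.node 5 6 (.leaf 1 0 [8,0,6,0,0,8,1,6,3,0]) (.leaf 18 5
  [8,0,0,12,24,8,1,11,3,24])))) (.node 11 12 (.node 7 8 (.leaf 14 0 [8,0,0,12,24,8,1,11,3,24]) (.node 10 11
  (.leaf 2 0 [0,0,16,12,0,0,1,11,3,0]) (.leaf 3 0 [0,0,16,12,0,0,1,16,3,0]))) (.node 15 16 (.node 14 15 (.leaf 4
  0 [0,24,16,0,0,0,1,16,3,0]) (.leaf 5 0 [0,24,16,0,0,0,1,16,3,0])) (.node 23 24 (.leaf 6 0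
  [0,24,0,0,0,0,1,0,3,0]) (.leaf 8 0 [0,0,0,0,0,0,1,0,3,0]))))))

/-- the cycles for the digit `6` -/
def C6 : List (List ℕ) :=
  [[], [], [], [], [], [], [], [], [9], [], [], [], [], [], [], [], [], [], [5, 7, 1, 4, 2, 8], [], [], [], [],
  [], [], [], [], [], [], [], [], [], [], [], [], [], [], [0], [], [], [], [], [], [], [], [], [], [], []]

theorem V6 : Valid 10 (10 ^ (1 - 1)) 6 24 C6 T6 := by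
  unfold Valid
  constructor <;> decide +kernel

/-- the tree for the digit `7` -/
def T7 : Tr :=
  .node 1 2 (.node 1 4 (.node 4 33 (.node 2 33 (.node 1 24 (.node 1 35 (.leaf 63 0 [0,7,0,9,0,0,0,1,0,3]) (.node
  1 33 (.leaf 1 0 [0,7,0,9,0,0,0,1,0,3]) (.leaf 7 0 [0,7,33,9,0,0,0,1,0,3]))) (.node 1 18 (.leaf 24 0
  [0,7,33,9,24,0,0,1,0,3]) (.node 2 35 (.leaf 26 0 [0,7,18,9,24,0,0,1,0,3]) (.leaf 29 0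
  [0,7,18,9,24,35,0,1,0,3])))) (.node 1 11 (.node 1 12 (.leaf 32 0 [0,7,18,9,24,33,0,1,0,3]) (.node 3 35 (.leaf
  33 0 [0,7,18,9,0,33,0,1,12,3]) (.leaf 35 0 [0,7,18,9,0,33,0,1,12,3]))) (.node 1 9 (.leaf 41 0
  [0,7,18,9,0,0,11,1,12,3]) (.node 4 35 (.leaf 42 0 [0,7,0,12,9,0,11,1,12,3]) (.leaf 43 0
  [0,7,0,12,9,0,11,1,12,3]))))) (.node 2 11 (.node 5 33 (.node 1 8 (.leaf 44 0 [0,7,0,12,9,0,11,1,12,3]) (.node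
  1 7 (.leaf 47 0 [0,7,0,12,9,0,11,1,12,3]) (.leaf 21 0 [0,24,0,12,9,0,11,1,7,3]))) (.node 1 6 (.leaf 54 0
  [0,24,0,12,9,0,11,1,7,3]) (.node 6 35 (.leaf 55 0 [0,6,0,18,9,0,6,1,7,3]) (.leaf 56 0
  [0,6,0,18,9,0,6,1,7,3])))) (.node 7 33 (.node 1 5 (.leaf 57 0 [0,6,0,18,9,11,6,1,7,3]) (.node 5 24 (.leaf 64 0
  [35,6,35,18,9,11,6,1,7,3]) (.leaf 65 0 [35,6,35,18,9,11,6,1,7,3]))) (.node 8 35 (.node 2 9 (.leaf 66 0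
  [33,6,35,18,9,11,6,1,7,3]) (.leaf 68 0 [33,6,35,24,35,9,6,1,7,3])) (.node 8 33 (.leaf 67 0
  [33,6,0,24,0,9,6,1,7,3]) (.leaf 58 0 [0,6,0,24,0,9,6,1,7,3])))))) (.node 3 8 (.node 10 33 (.node 5 18 (.node 9
  35 (.leaf 59 0 [0,6,12,33,4,9,6,1,7,3]) (.node 3 11 (.leaf 60 0 [0,6,12,33,4,9,6,1,7,3]) (.leaf 61 0
  [0,6,12,0,4,9,6,1,7,3]))) (.node 2 7 (.leaf 62 0 [0,6,12,0,4,9,6,1,7,3]) (.node 7 24 (.leaf 0 0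
  [0,6,12,0,4,7,6,1,0,3]) (.leaf 69 0 [24,6,12,0,4,7,6,1,0,3])))) (.node 12 35 (.node 11 35 (.leaf 70 0
  [24,6,12,0,4,7,6,1,0,3]) (.node 1 3 (.leaf 71 0 [24,6,12,0,4,7,6,1,0,3]) (.leaf 2 0 [0,0,3,0,4,7,9,1,0,4])))
  (.node 4 11 (.leaf 3 0 [0,35,3,35,4,7,9,1,0,4]) (.node 13 35 (.leaf 4 0 [0,35,3,11,4,7,9,1,0,4]) (.leaf 5 0
  [0,0,3,11,4,7,9,1,0,4]))))) (.node 3 7 (.node 2 5 (.node 7 18 (.leaf 6 0 [0,0,3,11,4,7,9,1,0,4]) (.node 13 33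
  (.leaf 45 0 [18,0,3,11,4,7,9,1,0,4]) (.leaf 46 0 [18,0,3,11,4,7,9,1,33,4]))) (.node 5 12 (.leaf 72 0
  [18,5,3,5,4,5,9,1,33,4]) (.node 14 33 (.leaf 73 0 [18,5,3,5,4,5,9,1,33,4]) (.leaf 74 0
  [18,5,3,5,4,5,9,1,0,4])))) (.node 16 35 (.node 4 9 (.leaf 75 0 [18,5,3,5,4,5,9,1,0,4]) (.node 5 11 (.leaf 8 0
  [0,5,3,5,4,5,12,1,0,4]) (.leaf 9 0 [0,5,3,5,4,5,12,1,0,4]))) (.node 16 33 (.node 11 24 (.leaf 10 0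
  [0,5,3,5,4,5,12,1,0,4]) (.leaf 19 0 [0,5,3,5,4,5,12,1,0,4])) (.node 17 35 (.leaf 20 0 [0,5,3,5,4,5,12,1,0,4])
  (.leaf 80 0 [35,5,3,5,4,5,12,1,35,4]))))))) (.node 3 4 (.node 11 18 (.node 5 9 (.node 13 24 (.node 18 35
  (.leaf 81 0 [35,5,3,2,6,5,18,1,2,5]) (.node 17 33 (.leaf 22 0 [0,5,3,2,6,5,18,1,2,5]) (.leaf 82 0
  [33,5,3,2,6,5,18,1,2,5]))) (.node 19 35 (.leaf 83 0 [33,5,3,2,6,5,18,1,2,5]) (.node 6 11 (.leaf 84 0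
  [33,5,3,2,6,5,18,1,2,5]) (.leaf 23 0 [0,5,3,2,6,5,18,1,2,5])))) (.node 7 12 (.node 4 7 (.leaf 25 0
  [0,5,3,2,6,5,24,1,2,5]) (.node 19 33 (.leaf 27 0 [0,5,3,2,6,5,24,1,2,5]) (.leaf 28 0 [0,5,3,2,6,5,24,1,2,5])))
  (.node 3 5 (.leaf 85 0 [12,5,3,2,6,5,33,1,2,5]) (.node 20 33 (.leaf 86 0 [12,11,3,2,6,12,33,1,2,6]) (.leaf 48
  0 [12,11,3,2,6,12,0,1,2,6]))))) (.node 24 35 (.node 7 11 (.node 5 8 (.leaf 49 0 [12,11,3,2,6,12,0,1,2,6])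
  (.node 22 35 (.leaf 50 0 [12,11,3,2,6,12,0,1,2,6]) (.leaf 51 0 [12,11,3,2,6,12,0,1,2,6]))) (.node 23 35 (.leaf
  52 0 [11,35,3,2,6,12,0,1,2,6]) (.node 2 3 (.leaf 53 0 [11,0,3,2,6,12,0,1,2,6]) (.leaf 14 0
  [11,0,0,2,0,3,0,1,2,7])))) (.node 5 7 (.node 23 33 (.leaf 11 0 [11,0,0,2,0,3,0,1,2,7]) (.node 17 24 (.leaf 12
  0 [11,0,0,2,0,3,0,1,2,7]) (.leaf 13 0 [11,0,0,2,0,3,0,1,2,7]))) (.node 8 11 (.node 13 18 (.leaf 15 0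
  [11,0,0,2,0,3,7,1,2,9]) (.leaf 16 0 [11,0,0,2,0,3,7,1,2,9])) (.node 26 35 (.leaf 17 0 [24,33,0,2,0,3,7,1,2,9])
  (.leaf 18 0 [24,33,0,2,0,3,7,1,2,9])))))) (.node 7 8 (.node 4 5 (.node 7 9 (.node 25 33 (.leaf 30 0
  [0,4,0,2,12,3,4,1,2,9]) (.node 27 35 (.leaf 31 0 [0,4,0,2,12,3,4,1,2,9]) (.leaf 87 0
  [35,4,35,2,12,3,4,1,2,9]))) (.node 26 33 (.leaf 88 0 [9,4,35,2,12,3,4,1,2,11]) (.node 19 24 (.leaf 89 0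
  [9,4,35,2,12,3,4,1,2,11]) (.leaf 90 0 [9,4,24,2,12,3,4,1,2,11])))) (.node 5 6 (.node 9 11 (.leaf 91 0
  [9,4,24,2,12,3,4,1,2,11]) (.node 29 35 (.leaf 92 0 [9,4,24,2,12,3,4,1,2,12]) (.leaf 93 0
  [9,4,24,2,12,3,4,1,2,12]))) (.node 28 33 (.leaf 94 0 [9,4,6,2,18,3,4,1,2,18]) (.node 6 7 (.leaf 95 0
  [9,4,6,2,18,3,4,1,2,18]) (.leaf 96 0 [9,4,6,2,18,3,4,1,2,18]))))) (.node 11 12 (.node 8 9 (.node 29 33 (.leaf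
  97 0 [9,4,6,2,18,3,4,1,2,18]) (.node 31 35 (.leaf 98 0 [9,4,6,2,18,3,4,1,2,18]) (.leaf 99 0
  [9,4,6,2,18,3,4,1,2,18]))) (.node 10 11 (.leaf 34 0 [0,4,6,2,24,3,4,1,2,24]) (.node 32 35 (.leaf 36 0
  [0,4,6,2,24,3,4,1,2,24]) (.leaf 37 0 [0,4,6,2,24,3,4,1,2,24])))) (.node 17 18 (.node 31 33 (.leaf 38 0
  [0,4,6,2,0,3,4,1,2,33]) (.node 33 35 (.leaf 39 0 [0,4,6,2,0,3,4,1,2,35]) (.leaf 40 0 [0,4,6,2,0,3,4,1,2,0])))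
  (.node 32 33 (.node 23 24 (.leaf 76 0 [18,4,6,2,0,3,4,1,2,0]) (.leaf 77 0 [18,4,6,2,0,3,4,1,2,0])) (.node 34
  35 (.leaf 78 0 [18,4,6,2,0,3,4,1,2,0]) (.leaf 79 0 [18,4,6,2,0,3,4,1,2,0])))))))

/-- the cycles for the digit `7` -/
def C7 : List (List ℕ) :=
  [[], [], [3], [], [], [], [], [], [], [], [], [], [], [], [6], [], [], [], [], [], [], [], [], [], [], [], [],
  [], [], [], [], [], [], [], [], [], [], [], [], [], [], [], [], [], [], [], [], [], [], [], [], [], [], [6],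
  [], [], [], [], [], [], [], [], [], [0], [], [], [], [], [], [], [], [3], [], [], [], [], [], [], [], [9], [],
  [], [], [], [], [], [], [], [], [], [], [], [], [], [], [], [], [], [], []]

theorem V7 : Valid 10 (10 ^ (1 - 1)) 7 35 C7 T7 := by
  unfold Valid
  constructor <;> decide +kernel

/-- the tree for the digit `8` -/
def T8 : Tr :=
  .node 1 2 (.node 1 4 (.node 2 15 (.node 1 15 (.node 1 32 (.leaf 54 0 [0,8,4,6,2,0,8,4,1,2]) (.node 1 16 (.leaf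
  36 0 [0,8,4,6,2,0,8,4,1,2]) (.leaf 41 0 [0,8,4,6,2,0,8,4,1,2]))) (.node 3 32 (.node 1 11 (.leaf 42 0
  [0,8,4,6,2,0,8,4,1,2]) (.leaf 43 0 [0,8,4,6,2,0,8,4,1,2])) (.node 1 8 (.leaf 44 0 [0,8,4,6,2,0,8,4,1,2])
  (.leaf 45 0 [0,16,4,6,2,0,16,4,1,2])))) (.node 2 11 (.node 5 32 (.leaf 49 0 [0,16,4,6,2,0,16,4,1,2]) (.node 1
  6 (.leaf 51 0 [0,16,4,6,2,0,16,4,1,2]) (.leaf 0 0 [0,16,4,0,2,0,16,4,1,2]))) (.node 1 5 (.node 3 16 (.leaf 2 0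
  [0,16,4,0,2,0,11,4,1,2]) (.leaf 6 0 [0,32,4,0,2,0,11,4,1,2])) (.node 7 32 (.leaf 52 0
  [0,15,4,15,2,15,11,4,1,2]) (.leaf 53 0 [0,15,4,15,2,15,11,4,1,2]))))) (.node 4 11 (.node 9 32 (.node 4 15
  (.leaf 56 0 [32,15,8,15,2,15,11,8,1,2]) (.node 3 11 (.leaf 17 0 [32,0,8,0,2,32,11,8,1,2]) (.leaf 23 0
  [32,0,8,0,2,11,0,8,1,2]))) (.node 1 3 (.node 5 16 (.leaf 24 0 [0,0,8,0,2,11,0,8,1,2]) (.leaf 25 0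
  [0,0,8,0,2,11,0,8,1,2])) (.node 11 32 (.leaf 30 0 [0,6,8,0,2,11,6,8,1,2]) (.leaf 27 0
  [0,6,8,0,2,11,6,8,1,2])))) (.node 7 16 (.node 2 5 (.node 3 8 (.leaf 28 0 [0,6,8,0,2,0,6,8,1,2]) (.leaf 31 0
  [0,6,16,32,2,0,6,16,1,2])) (.node 13 32 (.leaf 32 0 [0,6,16,32,2,0,6,16,1,2]) (.leaf 29 0
  [0,6,16,0,2,0,6,16,1,2]))) (.node 7 15 (.node 5 11 (.leaf 26 0 [0,6,32,0,2,0,6,32,1,2]) (.leaf 33 0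
  [0,6,32,11,2,0,6,32,1,2])) (.node 15 32 (.leaf 34 0 [0,6,32,11,2,0,6,32,1,2]) (.leaf 13 0
  [0,6,0,11,2,0,6,0,1,2])))))) (.node 11 15 (.node 5 8 (.node 6 11 (.node 17 32 (.leaf 55 0
  [16,32,0,8,4,16,32,0,1,4]) (.node 8 15 (.leaf 38 0 [16,0,0,8,4,16,0,0,1,4]) (.leaf 46 0
  [15,0,15,8,4,16,15,0,1,4]))) (.node 19 32 (.node 9 16 (.leaf 48 0 [15,0,11,8,4,16,15,0,1,4]) (.leaf 50 0
  [15,0,11,8,4,32,15,0,1,4])) (.node 3 5 (.leaf 47 0 [15,0,11,8,4,0,15,0,1,4]) (.leaf 35 0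
  [0,5,11,5,4,5,0,5,1,4])))) (.node 2 3 (.node 7 11 (.leaf 37 0 [0,5,11,5,4,5,0,5,1,4]) (.node 21 32 (.leaf 39 0
  [0,5,0,5,4,5,0,5,1,4]) (.leaf 40 0 [0,5,0,5,4,5,0,5,1,4]))) (.node 23 32 (.node 11 16 (.leaf 16 0
  [0,5,0,5,4,5,0,5,1,4]) (.leaf 10 0 [0,5,0,5,4,5,0,5,1,4])) (.node 8 11 (.leaf 11 0 [0,5,0,5,4,5,0,5,1,4])
  (.leaf 12 0 [11,5,0,5,4,5,0,5,1,4]))))) (.node 27 32 (.node 4 5 (.node 3 4 (.leaf 14 0 [11,5,0,5,4,5,0,5,1,4])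
  (.node 25 32 (.leaf 57 0 [11,5,32,5,6,5,16,5,1,5]) (.leaf 21 0 [11,5,0,5,6,5,16,5,1,5]))) (.node 9 11 (.node
  13 16 (.leaf 22 0 [11,16,0,0,6,0,16,0,1,6]) (.leaf 18 0 [11,32,0,0,6,0,32,0,1,6])) (.node 5 6 (.leaf 19 0
  [0,32,0,0,6,0,32,0,1,6]) (.leaf 20 0 [0,32,0,0,8,0,32,0,1,8])))) (.node 10 11 (.node 7 8 (.node 13 15 (.leaf 1
  0 [0,0,0,0,8,0,0,0,1,8]) (.leaf 15 0 [0,15,0,15,8,15,0,15,1,8])) (.node 29 32 (.leaf 7 0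
  [32,15,0,15,16,15,0,15,1,11]) (.leaf 8 0 [0,15,0,15,16,15,0,15,1,11]))) (.node 15 16 (.node 14 15 (.leaf 9 0
  [0,15,0,15,16,15,0,15,1,15]) (.leaf 3 0 [0,0,0,0,16,0,0,0,1,16])) (.node 31 32 (.leaf 4 0
  [0,0,0,0,32,0,0,0,1,32]) (.leaf 5 0 [0,0,0,0,0,0,0,0,1,0]))))))

/-- the cycles for the digit `8` -/
def C8 : List (List ℕ) :=
  [[], [], [], [], [], [9], [], [], [], [], [], [], [], [], [], [], [6], [], [], [], [], [], [], [], [], [3],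
  [], [], [], [], [3], [], [], [], [], [], [], [], [], [], [6], [], [], [], [], [], [], [], [], [], [], [], [],
  [], [0], [], [], []]

theorem V8 : Valid 10 (10 ^ (1 - 1)) 8 32 C8 T8 := by
  unfold Valid
  constructor <;> decide +kernel

/-- the tree for the digit `9` -/
def T9 : Tr :=
  .node 1 2 (.node 1 4 (.node 1 8 (.node 1 15 (.node 1 28 (.node 1 45 (.node 1 72 (.leaf 86 0
  [0,9,0,3,0,0,0,7,0,1]) (.leaf 58 0 [0,9,0,3,72,0,0,7,0,1])) (.node 1 36 (.leaf 62 0 [0,9,0,3,72,0,0,7,0,1])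
  (.leaf 68 0 [0,9,0,3,0,0,0,7,36,1]))) (.node 2 45 (.node 1 24 (.leaf 72 0 [0,9,0,3,0,0,28,7,36,1]) (.leaf 74 0
  [0,9,24,3,0,0,28,7,36,1])) (.node 1 18 (.leaf 75 0 [0,9,24,3,0,0,28,7,36,1]) (.node 1 16 (.leaf 26 0
  [0,9,24,3,0,0,18,7,0,1]) (.leaf 76 0 [0,9,24,3,0,0,18,7,16,1]))))) (.node 4 45 (.node 1 14 (.node 5 72 (.leaf
  77 0 [0,9,24,3,0,0,18,7,16,1]) (.leaf 78 0 [0,9,24,3,0,0,18,7,16,1])) (.node 1 12 (.leaf 79 0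
  [0,9,24,3,0,0,18,7,16,1]) (.leaf 80 0 [0,9,0,3,12,0,18,7,16,1]))) (.node 7 72 (.node 1 11 (.leaf 81 0
  [0,9,0,3,12,45,18,7,16,1]) (.leaf 82 0 [0,9,0,3,12,45,18,7,11,1])) (.node 3 28 (.leaf 83 0
  [0,9,0,3,12,45,18,7,11,1]) (.node 1 9 (.leaf 84 0 [0,9,28,3,12,45,18,7,11,1]) (.leaf 85 0
  [0,0,9,3,12,0,0,7,11,1])))))) (.node 13 72 (.node 11 72 (.node 5 36 (.node 2 15 (.leaf 104 0
  [72,8,9,3,12,72,8,7,11,1]) (.leaf 105 0 [72,8,9,3,12,72,8,7,11,1])) (.node 1 7 (.leaf 0 0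
  [0,8,9,3,12,0,8,7,11,1]) (.leaf 22 1 [0,8,9,3,7,0,8,0,11,1]))) (.node 1 6 (.node 7 45 (.leaf 1 0
  [0,8,9,3,7,0,8,0,11,1]) (.leaf 2 0 [0,8,9,3,7,0,8,0,11,1])) (.node 8 45 (.leaf 51 0 [0,8,9,3,7,0,8,18,6,1])
  (.node 5 28 (.leaf 52 0 [0,8,9,3,7,0,8,18,6,1]) (.leaf 53 0 [0,8,9,3,7,0,8,18,6,1]))))) (.node 5 24 (.node 3
  16 (.node 2 11 (.leaf 54 0 [0,8,9,3,7,0,8,18,6,1]) (.leaf 55 0 [0,8,9,3,7,0,8,11,6,1])) (.node 7 36 (.leaf 56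
  0 [0,8,9,3,7,0,8,11,6,1]) (.node 1 5 (.leaf 57 0 [0,8,9,3,7,0,8,11,6,1]) (.leaf 89 0
  [45,8,9,3,7,0,8,11,6,1])))) (.node 2 9 (.node 3 14 (.leaf 90 0 [45,8,9,3,7,0,8,11,6,1]) (.leaf 91 0
  [45,8,9,3,7,0,8,11,6,1])) (.node 17 72 (.leaf 61 0 [0,8,0,3,7,0,8,11,6,1]) (.node 11 45 (.leaf 59 0
  [0,8,0,3,7,0,8,11,6,1]) (.leaf 60 0 [0,8,0,3,7,0,8,11,6,1]))))))) (.node 3 8 (.node 14 45 (.node 5 18 (.node 4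
  15 (.node 19 72 (.leaf 102 0 [36,0,4,3,7,36,0,4,6,1]) (.leaf 103 0 [36,0,4,3,7,36,0,4,6,1])) (.node 3 11
  (.leaf 106 0 [36,15,4,3,7,15,0,4,6,1]) (.leaf 107 0 [36,15,4,3,7,15,11,4,6,1]))) (.node 13 45 (.node 2 7
  (.leaf 63 0 [0,15,4,3,7,15,11,4,6,1]) (.leaf 22 3 [0,7,4,3,0,15,11,4,6,1])) (.node 7 24 (.leaf 9 0
  [0,7,4,3,0,15,11,4,6,1]) (.node 11 36 (.leaf 65 0 [0,7,4,3,72,15,11,4,6,1]) (.leaf 10 0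
  [0,7,4,3,0,15,11,4,6,1]))))) (.node 25 72 (.node 23 72 (.node 5 16 (.leaf 11 0 [0,7,4,3,0,15,11,4,6,1]) (.leaf
  66 0 [0,7,4,3,16,15,11,4,6,1])) (.node 9 28 (.leaf 67 0 [0,7,4,3,16,15,11,4,6,1]) (.node 1 3 (.leaf 108 0
  [28,7,4,3,16,15,11,4,6,1]) (.leaf 121 0 [28,7,4,0,9,28,3,4,0,1])))) (.node 5 14 (.node 16 45 (.leaf 109 0
  [28,7,4,0,9,28,3,4,0,1]) (.leaf 110 0 [28,7,4,0,9,28,3,4,0,1])) (.node 13 36 (.leaf 69 0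
  [0,7,4,0,9,0,3,4,0,1]) (.node 4 11 (.leaf 70 0 [0,7,4,0,9,0,3,4,0,1]) (.leaf 71 0 [0,7,4,0,9,11,3,4,0,1]))))))
  (.node 31 72 (.node 2 5 (.node 7 18 (.node 17 45 (.leaf 112 0 [24,7,4,0,9,11,3,4,0,1]) (.leaf 115 0
  [24,7,4,0,9,11,3,4,0,1])) (.node 11 28 (.leaf 116 0 [24,7,4,0,9,11,3,4,0,1]) (.leaf 117 0
  [24,7,4,0,9,11,3,4,0,1]))) (.node 5 12 (.node 29 72 (.leaf 118 0 [24,7,4,0,9,11,3,4,0,1]) (.leaf 119 0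
  [24,7,4,0,9,11,3,4,0,1])) (.node 19 45 (.leaf 73 0 [0,7,4,0,9,11,3,4,0,1]) (.node 3 7 (.leaf 120 0
  [45,7,4,0,9,11,3,4,45,1]) (.leaf 22 2 [45,0,4,0,9,11,3,4,7,1]))))) (.node 13 28 (.node 4 9 (.node 7 16 (.leaf
  12 0 [45,0,4,0,9,11,3,4,7,1]) (.leaf 13 0 [45,0,4,0,9,11,3,4,7,1])) (.node 5 11 (.leaf 14 0
  [0,0,4,0,0,9,3,4,7,1]) (.node 11 24 (.leaf 15 0 [0,0,4,0,11,9,3,4,7,1]) (.leaf 16 0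
  [0,0,4,72,11,9,3,4,7,1])))) (.node 17 36 (.node 7 15 (.leaf 17 0 [0,0,4,72,11,9,3,4,7,1]) (.leaf 18 0
  [0,0,4,72,11,9,3,4,7,1])) (.node 35 72 (.leaf 19 0 [0,0,4,0,11,9,3,4,7,1]) (.node 22 45 (.leaf 20 0
  [0,0,4,0,11,9,3,4,7,1]) (.leaf 21 0 [0,0,4,0,11,9,3,4,7,1])))))))) (.node 53 72 (.node 28 45 (.node 9 16
  (.node 8 15 (.node 37 72 (.node 23 45 (.leaf 87 0 [18,6,0,0,2,9,3,0,7,1]) (.leaf 88 0 [18,6,0,0,2,9,3,0,7,1]))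
  (.node 19 36 (.leaf 92 0 [18,6,0,0,2,9,3,0,7,1]) (.leaf 93 0 [18,6,0,0,2,9,3,0,7,1]))) (.node 13 24 (.node 15
  28 (.leaf 94 0 [18,6,0,45,2,9,3,45,7,1]) (.leaf 95 0 [18,6,0,28,2,9,3,45,7,1])) (.node 6 11 (.leaf 96 0
  [18,6,0,28,2,9,3,45,7,1]) (.node 5 9 (.leaf 97 0 [18,6,0,11,2,9,3,45,7,1]) (.leaf 25 0
  [0,6,0,11,2,0,3,0,7,1]))))) (.node 7 12 (.node 4 7 (.node 41 72 (.leaf 98 0 [16,6,0,11,2,16,3,0,7,1]) (.leaf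
  99 0 [16,6,0,11,2,16,3,0,7,1])) (.node 26 45 (.leaf 22 5 [16,6,0,11,2,7,3,0,0,1]) (.leaf 7 0
  [16,6,0,11,2,7,3,0,0,1]))) (.node 3 5 (.node 43 72 (.leaf 100 0 [16,6,0,11,2,7,3,0,36,1]) (.leaf 101 0
  [16,6,0,11,2,7,3,0,36,1])) (.node 17 28 (.leaf 122 0 [15,6,15,11,2,7,3,0,15,1]) (.node 11 18 (.leaf 123 0
  [15,6,15,11,2,7,3,0,15,1]) (.leaf 124 0 [15,6,15,11,2,7,3,0,15,1])))))) (.node 49 72 (.node 9 14 (.node 7 11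
  (.node 5 8 (.leaf 125 0 [15,6,15,11,2,7,3,0,15,1]) (.leaf 126 0 [15,6,15,8,2,7,3,72,8,1])) (.node 23 36 (.leaf
  127 0 [15,6,11,8,2,7,3,72,8,1]) (.leaf 128 0 [15,6,11,8,2,7,3,0,8,1]))) (.node 47 72 (.node 29 45 (.leaf 129 0
  [15,6,11,8,2,7,3,0,8,1]) (.leaf 130 0 [15,6,11,8,2,7,3,0,8,1])) (.node 2 3 (.leaf 131 0
  [15,6,11,8,2,7,3,0,8,1]) (.node 19 28 (.leaf 50 0 [0,0,11,8,2,7,0,9,8,1]) (.leaf 24 0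
  [28,0,11,8,2,7,0,9,8,1]))))) (.node 32 45 (.node 31 45 (.node 11 16 (.leaf 28 0 [28,0,11,8,2,7,0,9,8,1])
  (.leaf 29 0 [28,0,11,8,2,7,0,9,8,1])) (.node 25 36 (.leaf 46 0 [28,0,11,8,2,7,0,9,8,1]) (.node 17 24 (.leaf 47
  0 [28,0,11,8,2,7,0,9,8,1]) (.leaf 48 0 [28,0,11,8,2,7,0,9,8,1])))) (.node 13 18 (.node 5 7 (.leaf 49 0
  [28,0,11,8,2,7,0,9,8,1]) (.leaf 22 0 [0,0,7,8,2,0,0,9,8,1])) (.node 8 11 (.leaf 3 0 [0,0,7,8,2,0,0,9,8,1])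
  (.node 11 15 (.leaf 4 0 [0,11,7,8,2,0,0,9,8,1]) (.leaf 5 0 [0,11,7,8,2,0,0,9,8,1]))))))) (.node 13 15 (.node
  13 16 (.node 7 9 (.node 34 45 (.node 3 4 (.leaf 6 0 [0,11,7,8,2,0,0,9,8,1]) (.leaf 111 0
  [12,11,7,0,2,12,28,9,0,1])) (.node 55 72 (.leaf 132 0 [12,11,7,45,2,12,28,9,0,1]) (.leaf 133 0
  [12,11,7,45,2,12,28,9,0,1]))) (.node 19 24 (.node 11 14 (.leaf 114 0 [12,11,7,0,2,12,28,0,9,1]) (.leaf 23 0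
  [12,11,7,0,2,12,0,0,9,1])) (.node 4 5 (.leaf 113 0 [12,11,7,0,2,12,72,0,9,1]) (.node 29 36 (.leaf 134 0
  [12,5,7,5,2,5,72,5,9,1]) (.leaf 27 0 [12,5,7,5,2,5,0,5,9,1]))))) (.node 5 6 (.node 59 72 (.node 9 11 (.leaf
  135 0 [12,5,7,5,2,5,16,5,9,1]) (.leaf 136 0 [11,5,7,5,2,5,16,5,9,1])) (.node 23 28 (.leaf 137 0
  [11,5,7,5,2,5,16,5,9,1]) (.node 37 45 (.leaf 138 0 [11,5,7,5,2,5,16,5,9,1]) (.leaf 139 0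
  [11,5,7,5,2,5,16,5,9,1])))) (.node 61 72 (.node 38 45 (.leaf 140 0 [11,5,7,5,2,5,16,5,9,1]) (.leaf 141 0
  [11,5,7,5,2,5,16,5,9,1])) (.node 6 7 (.leaf 142 0 [11,5,7,5,2,5,16,5,9,1]) (.node 31 36 (.leaf 22 4
  [11,5,0,5,2,5,16,5,9,1]) (.leaf 8 0 [11,5,0,5,2,5,16,5,9,1])))))) (.node 67 72 (.node 65 72 (.node 8 9 (.node
  7 8 (.leaf 143 0 [11,5,45,5,2,5,16,5,9,1]) (.leaf 144 0 [11,5,24,5,2,5,45,5,9,1])) (.node 25 28 (.leaf 30 0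
  [11,5,24,5,2,5,0,5,0,1]) (.leaf 42 0 [11,5,24,5,2,5,0,5,28,1]))) (.node 41 45 (.node 10 11 (.leaf 43 0
  [11,5,24,5,2,5,0,5,28,1]) (.leaf 44 0 [0,5,24,5,2,5,0,5,28,1])) (.node 11 12 (.leaf 45 0
  [0,5,24,5,2,5,0,5,28,1]) (.node 13 14 (.leaf 64 0 [0,5,0,5,2,5,36,5,28,1]) (.leaf 31 0
  [0,5,0,5,2,5,36,5,0,1]))))) (.node 23 24 (.node 15 16 (.node 14 15 (.leaf 32 0 [0,5,0,5,2,5,36,5,0,1]) (.leaf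
  33 0 [0,5,0,5,2,5,36,5,0,1])) (.node 17 18 (.leaf 34 0 [0,5,0,5,2,5,36,5,0,1]) (.node 43 45 (.leaf 35 0
  [0,5,0,5,2,5,0,5,0,1]) (.leaf 36 0 [0,5,0,5,2,5,0,5,0,1])))) (.node 35 36 (.node 27 28 (.leaf 37 0
  [72,5,0,5,2,5,0,5,0,1]) (.leaf 38 0 [72,5,0,5,2,5,0,5,0,1])) (.node 44 45 (.leaf 39 0 [0,5,0,5,2,5,0,5,0,1])
  (.node 71 72 (.leaf 40 0 [0,5,0,5,2,5,0,5,0,1]) (.leaf 41 0 [0,5,0,5,2,5,0,5,0,1]))))))))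

/-- the cycles for the digit `9` -/
def C9 : List (List ℕ) :=
  [[], [], [], [], [], [], [], [], [], [], [], [], [], [], [4], [], [], [], [], [], [], [], [7, 1, 4, 2, 8, 5],
  [], [], [5], [], [], [], [], [8], [], [], [], [], [], [], [], [], [], [], [], [], [], [], [], [], [], [], [],
  [6], [], [], [], [], [], [], [], [], [], [], [2], [], [], [], [], [], [], [], [], [], [], [], [], [], [], [],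
  [], [], [], [], [], [], [], [], [1], [0], [], [], [], [], [], [], [], [], [], [], [], [], [], [], [], [], [],
  [], [], [], [], [], [], [], [], [], [], [7], [], [], [], [], [], [], [3], [], [], [], [], [], [], [], [], [],
  [], [], [], [], [], [], [], [], [], [], [], [], [], []]

theorem V9 : Valid 10 (10 ^ (1 - 1)) 9 72 C9 T9 := by
  unfold Valid
  constructor <;> decide +kernel

end Pool.Agent.K9h59.MD
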